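import Pool.Agent.Helper76.EOLDefs

/-!
# Basic facts on derivations in EOL grammars
-/

namespace Pool.Agent.Helper76.EOL

variable {G : Grammar}

/-- `n`-step derivations. -/
def Der (G : Grammar) : ℕ → List ℕ → List ℕ → Prop
  | 0, u, v => u = v
  | n + 1, u, v => ∃ w, Step G u w ∧ Der G n w v

lemma der_zero {u v : List ℕ} : Der G 0 u v ↔ u = v := Iff.rfl

lemma der_succ {n : ℕ} {u v : List ℕ} : Der G (n + 1) u v ↔ ∃ w, Step G u w ∧ Der G n w v :=
  Iff.rfl

lemma step_nil {v : List ℕ} : Step G [] v ↔ v = [] := by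
  constructor
  · intro h
    cases h
    rfl
  · rintro rfl
    exact Step.nil

lemma step_cons {X : ℕ} {u v : List ℕ} :
    Step G (X :: u) v ↔ ∃ α w, (X, α) ∈ G.P ∧ Step G u w ∧ v = α ++ w := by
  constructor
  · intro h
    cases h with
    | cons h1 h2 => exact ⟨_, _, h1, h2, rfl⟩
  · rintro ⟨α, w, h1, h2, rfl⟩
    exact Step.cons h1 h2

lemma step_single {X : ℕ} {v : List ℕ} : Step G [X] v ↔ (X, v) ∈ G.P := by
  rw [step_cons]
  constructor
  · rintro ⟨α, w, h1, h2, rfl⟩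
    rw [step_nil] at h2
    subst h2
    simpa using h1
  · intro h
    exact ⟨v, [], h, Step.nil, by simp⟩

lemma step_append {u₁ u₂ v : List ℕ} :
    Step G (u₁ ++ u₂) v ↔ ∃ v₁ v₂, v = v₁ ++ v₂ ∧ Step G u₁ v₁ ∧ Step G u₂ v₂ := by
  induction u₁ generalizing v with
  | nil =>
    constructor
    · intro h
      exact ⟨[], v, rfl, Step.nil, h⟩
    · rintro ⟨v₁, v₂, rfl, h1, h2⟩
      rw [step_nil] at h1
      subst h1
      exact h2
  | cons X u ih =>
    rw [List.cons_append, step_cons]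
    constructor
    · rintro ⟨α, w, h1, h2, rfl⟩
      obtain ⟨v₁, v₂, rfl, h3, h4⟩ := ih.1 h2
      exact ⟨α ++ v₁, v₂, by simp, Step.cons h1 h3, h4⟩
    · rintro ⟨v₁, v₂, rfl, h1, h2⟩
      obtain ⟨α, w, h3, h4, rfl⟩ := step_cons.1 h1
      exact ⟨α, w ++ v₂, h3, ih.2 ⟨w, v₂, rfl, h4, h2⟩, by simp⟩

lemma der_nil {n : ℕ} {v : List ℕ} : Der G n [] v ↔ v = [] := by
  induction n with
  | zero => rw [der_zero]; exact eq_comm
  | succ n ih =>
    rw [der_succ]
    constructor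
    · rintro ⟨w, h1, h2⟩
      rw [step_nil] at h1
      subst h1
      exact ih.1 h2
    · rintro rfl
      exact ⟨[], Step.nil, ih.2 rfl⟩

lemma der_append {n : ℕ} {u₁ u₂ v : List ℕ} :
    Der G n (u₁ ++ u₂) v ↔ ∃ v₁ v₂, v = v₁ ++ v₂ ∧ Der G n u₁ v₁ ∧ Der G n u₂ v₂ := by
  induction n generalizing u₁ u₂ v with
  | zero =>
    constructor
    · intro h
      exact ⟨u₁, u₂, (der_zero.1 h).symm, rfl, rfl⟩
    · rintro ⟨v₁, v₂, rfl, h1, h2⟩
      rw [der_zero] at *
      rw [h1, h2]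
  | succ n ih =>
    constructor
    · intro h
      obtain ⟨w, h1, h2⟩ := der_succ.1 h
      obtain ⟨w₁, w₂, rfl, h3, h4⟩ := step_append.1 h1
      obtain ⟨v₁, v₂, rfl, h5, h6⟩ := ih.1 h2
      exact ⟨v₁, v₂, rfl, ⟨w₁, h3, h5⟩, ⟨w₂, h4, h6⟩⟩
    · rintro ⟨v₁, v₂, rfl, ⟨w₁, h3, h5⟩, ⟨w₂, h4, h6⟩⟩
      exact ⟨w₁ ++ w₂, step_append.2 ⟨w₁, w₂, rfl, h3, h4⟩, ih.2 ⟨v₁, v₂, rfl, h5, h6⟩⟩

lemma Der.append {n : ℕ} {u₁ u₂ v₁ v₂ : List ℕ} (h₁ : Der G n u₁ v₁) (h₂ : Der G n u₂ v₂) :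
    Der G n (u₁ ++ u₂) (v₁ ++ v₂) :=
  der_append.2 ⟨v₁, v₂, rfl, h₁, h₂⟩

lemma der_add {m n : ℕ} {u v : List ℕ} :
    Der G (m + n) u v ↔ ∃ w, Der G m u w ∧ Der G n w v := by
  induction m generalizing u with
  | zero =>
    rw [Nat.zero_add]
    constructor
    · intro h
      exact ⟨u, rfl, h⟩
    · rintro ⟨w, h1, h2⟩
      rw [der_zero] at h1
      subst h1
      exact h2
  | succ m ih =>
    rw [show m + 1 + n = (m + n) + 1 by omega, der_succ]
    constructor
    · rintro ⟨w, h1, h2⟩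
      obtain ⟨w', h3, h4⟩ := ih.1 h2
      exact ⟨w', ⟨w, h1, h3⟩, h4⟩
    · rintro ⟨w, ⟨w', h1, h2⟩, h3⟩
      exact ⟨w', h1, ih.2 ⟨w, h2, h3⟩⟩

lemma Der.trans {m n : ℕ} {u v w : List ℕ} (h₁ : Der G m u v) (h₂ : Der G n v w) :
    Der G (m + n) u w :=
  der_add.2 ⟨v, h₁, h₂⟩

lemma der_one {u v : List ℕ} : Der G 1 u v ↔ Step G u v := by
  constructor
  · rintro ⟨w, h1, h2⟩
    rw [der_zero] at h2
    subst h2
    exact h1
  · intro h
    exact ⟨v, h, rfl⟩

lemma der_cons {n : ℕ} {X : ℕ} {u v : List ℕ} :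
    Der G n (X :: u) v ↔ ∃ v₁ v₂, v = v₁ ++ v₂ ∧ Der G n [X] v₁ ∧ Der G n u v₂ := by
  rw [← List.singleton_append, der_append]

lemma der_of_prod {X : ℕ} {α : List ℕ} (h : (X, α) ∈ G.P) : Der G 1 [X] α :=
  der_one.2 (step_single.2 h)

lemma der_single_succ {n : ℕ} {X : ℕ} {v : List ℕ} :
    Der G (n + 1) [X] v ↔ ∃ α, (X, α) ∈ G.P ∧ Der G n α v := by
  rw [der_succ]
  constructor
  · rintro ⟨w, h1, h2⟩
    exact ⟨w, step_single.1 h1, h2⟩
  · rintro ⟨w, h1, h2⟩
    exact ⟨w, step_single.2 h1, h2⟩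

lemma reflTransGen_iff {u v : List ℕ} :
    Relation.ReflTransGen (Step G) u v ↔ ∃ n, Der G n u v := by
  constructor
  · intro h
    induction h with
    | refl => exact ⟨0, rfl⟩
    | tail _ h ih =>
      obtain ⟨n, hn⟩ := ih
      exact ⟨n + 1, hn.trans (der_one.2 h)⟩
  · rintro ⟨n, hn⟩
    induction n generalizing u with
    | zero => rw [der_zero] at hn; subst hn; exact Relation.ReflTransGen.refl
    | succ n ih =>
      obtain ⟨w, h1, h2⟩ := hn
      exact Relation.ReflTransGen.head h1 (ih h2)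

lemma mem_lang {w : List ℕ} :
    w ∈ lang G ↔ (∀ x ∈ w, x ∈ G.T) ∧ ∃ n, Der G n [G.S] w := by
  have h : w ∈ lang G ↔ (∀ x ∈ w, x ∈ G.T) ∧ Relation.ReflTransGen (Step G) [G.S] w := Iff.rfl
  rw [h, reflTransGen_iff]

lemma step_mem_V {u v : List ℕ} (h : Step G u v) : ∀ x ∈ v, x ∈ G.V := by
  induction h with
  | nil => simp
  | cons h _ ih =>
    intro x hx
    rw [List.mem_append] at hx
    rcases hx with hx | hx
    · exact (G.prod_wf _ h).2 x hx
    · exact ih x hx

lemma der_mem_V {n : ℕ} {u v : List ℕ} (h : Der G n u v) (hu : ∀ x ∈ u, x ∈ G.V) :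
    ∀ x ∈ v, x ∈ G.V := by
  induction n generalizing u with
  | zero => rw [der_zero] at h; subst h; exact hu
  | succ n ih =>
    obtain ⟨w, h1, h2⟩ := h
    exact ih h2 (step_mem_V h1)

/-- `G` is propagating: no right-hand side is empty. -/
def Propagating (G : Grammar) : Prop := ∀ p ∈ G.P, p.2 ≠ []

lemma step_length (hp : Propagating G) {u v : List ℕ} (h : Step G u v) :
    u.length ≤ v.length := by
  induction h with
  | nil => simp
  | @cons X α u v h _ ih =>
    have : 0 < α.length := List.length_pos_iff.2 (hp _ h)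
    simp only [List.length_cons, List.length_append]
    omega

lemma der_length (hp : Propagating G) {n : ℕ} {u v : List ℕ} (h : Der G n u v) :
    u.length ≤ v.length := by
  induction n generalizing u with
  | zero => rw [der_zero] at h; subst h; exact le_rfl
  | succ n ih =>
    obtain ⟨w, h1, h2⟩ := h
    exact (step_length hp h1).trans (ih h2)

/-- A bound for the lengths of the right-hand sides. -/
lemma exists_bound (G : Grammar) : ∃ r : ℕ, 1 ≤ r ∧ ∀ p ∈ G.P, p.2.length ≤ r := by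
  refine ⟨G.P.sup (fun p => p.2.length) + 1, by omega, ?_⟩
  intro p hp
  have h : p.2.length ≤ G.P.sup (fun p => p.2.length) :=
    Finset.le_sup (f := fun p : ℕ × List ℕ => p.2.length) hp
  omega

lemma step_length_le {r : ℕ} (hr : ∀ p ∈ G.P, p.2.length ≤ r) {u v : List ℕ}
    (h : Step G u v) : v.length ≤ r * u.length := by
  induction h with
  | nil => simp
  | @cons X α u v h _ ih =>
    have : α.length ≤ r := hr _ h
    simp only [List.length_cons, List.length_append]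
    rw [Nat.mul_succ]
    omega

lemma der_length_le {r : ℕ} (hr : ∀ p ∈ G.P, p.2.length ≤ r) {n : ℕ} {u v : List ℕ}
    (h : Der G n u v) : v.length ≤ r ^ n * u.length := by
  induction n generalizing u with
  | zero => rw [der_zero] at h; subst h; simp
  | succ n ih =>
    obtain ⟨w, h1, h2⟩ := h
    refine (ih h2).trans ?_
    rw [pow_succ, mul_assoc]
    exact Nat.mul_le_mul_left _ (step_length_le hr h1)

lemma der_replicate {n : ℕ} {x y : ℕ} (h : Der G n [x] [y]) (k : ℕ) :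
    Der G n (List.replicate k x) (List.replicate k y) := by
  induction k with
  | zero => exact der_nil.2 rfl
  | succ k ih =>
    rw [List.replicate_succ, List.replicate_succ, ← List.singleton_append,
      ← List.singleton_append (x := y)]
    exact h.append ih

/-- Every word over `V` has a derivation of every length. -/
lemma exists_der (G : Grammar) (n : ℕ) {u : List ℕ} (hu : ∀ x ∈ u, x ∈ G.V) :
    ∃ v, Der G n u v := by
  induction n generalizing u with
  | zero => exact ⟨u, rfl⟩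
  | succ n ih =>
    have : ∃ w, Step G u w := by
      clear ih
      induction u with
      | nil => exact ⟨[], Step.nil⟩
      | cons X u ih =>
        obtain ⟨w, hw⟩ := ih (fun x hx => hu x (by simp [hx]))
        obtain ⟨α, hα⟩ := G.total X (hu X (by simp))
        exact ⟨α ++ w, Step.cons hα hw⟩
    obtain ⟨w, hw⟩ := this
    obtain ⟨v, hv⟩ := ih (step_mem_V hw)
    exact ⟨v, w, hw, hv⟩

end Pool.Agent.Helper76.EOL
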