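import Pool.Agent.Helper76.EOLTest

/-!
# Core arguments about grammars generating the test language
-/

namespace Pool.Agent.Helper76.EOL

open List

variable {G : Grammar}

lemma append_eq_replicate' {u v : List ℕ} {k x : ℕ} (h : u ++ v = replicate k x) :
    u = replicate u.length x ∧ v = replicate v.length x ∧ u.length + v.length = k := by
  have h1 : ∀ y ∈ u ++ v, y = x := by
    rw [h]
    intro y hy
    exact eq_of_mem_replicate hy
  have h2 : (u ++ v).length = k := by rw [h, length_replicate]
  refine ⟨?_, ?_, ?_⟩
  · exact eq_replicate_of_mem (fun y hy => h1 y (by simp [hy]))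
  · exact eq_replicate_of_mem (fun y hy => h1 y (by simp [hy]))
  · rw [length_append] at h2
    exact h2

/-- Splitting a derivation of a power of one letter. -/
lemma der_append_replicate {n : ℕ} {u v : List ℕ} {k x : ℕ}
    (h : Der G n (u ++ v) (replicate k x)) :
    ∃ k₁ k₂, Der G n u (replicate k₁ x) ∧ Der G n v (replicate k₂ x) ∧ k₁ + k₂ = k := by
  obtain ⟨v₁, v₂, h1, h2, h3⟩ := der_append.1 h
  obtain ⟨e1, e2, e3⟩ := append_eq_replicate' h1.symm
  exact ⟨v₁.length, v₂.length, by rw [← e1]; exact h2, by rw [← e2]; exact h3, e3⟩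

lemma run_eq {a b : ℕ} {r r' : List ℕ}
    (h : replicate a 1 ++ 0 :: r = replicate b 1 ++ 0 :: r') : a = b ∧ r = r' := by
  induction a generalizing b with
  | zero =>
    cases b with
    | zero => simpa using h
    | succ b => simp [replicate_succ] at h
  | succ a ih =>
    cases b with
    | zero => simp [replicate_succ] at h
    | succ b =>
      simp only [replicate_succ, cons_append, cons.injEq, true_and] at h
      obtain ⟨h1, h2⟩ := ih h
      exact ⟨by omega, h2⟩

lemma run_eq' {a b : ℕ} {r r' : List ℕ}
    (h : replicate a 0 ++ 1 :: r = replicate b 0 ++ 1 :: r') : a = b ∧ r = r' := by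
  induction a generalizing b with
  | zero =>
    cases b with
    | zero => simpa using h
    | succ b => simp [replicate_succ] at h
  | succ a ih =>
    cases b with
    | zero => simp [replicate_succ] at h
    | succ b =>
      simp only [replicate_succ, cons_append, cons.injEq, true_and] at h
      obtain ⟨h1, h2⟩ := ih h
      exact ⟨by omega, h2⟩

/-- Powers of `b` in the test language. -/
lemma test_pow {k : ℕ} (h : replicate k 1 ∈ testLang) : ∃ N, k = 2 ^ N := by
  rcases h with ⟨m, n, hm, hn, h⟩ | ⟨N, h⟩
  · exfalso
    have : (0 : ℕ) ∈ replicate k 1 := by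
      rw [h]
      simp only [mem_append, mem_replicate]
      right; left
      exact ⟨by omega, trivial⟩
    have := eq_of_mem_replicate this
    omega
  · refine ⟨N, ?_⟩
    have := congrArg length h
    simpa using this

/-- A word of the test language starting with `b^i a` and ending in `a b^l`. -/
lemma test_outer {i n l : ℕ} (hn : 1 ≤ n)
    (h : replicate i 1 ++ (replicate n 0 ++ replicate l 1) ∈ testLang) : i = l := by
  obtain ⟨n, rfl⟩ : ∃ n', n = n' + 1 := ⟨n - 1, by omega⟩
  rcases h with ⟨m, n', hm, hn', h⟩ | ⟨N, h⟩
  · obtain ⟨n', rfl⟩ : ∃ n'', n' = n'' + 1 := ⟨n' - 1, by omega⟩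
    rw [replicate_succ (n := n), replicate_succ (n := n'), cons_append, cons_append] at h
    obtain ⟨h1, h2⟩ := run_eq h
    have h3 := congrArg (List.count 1) h2
    simp [List.count_append, List.count_replicate] at h3
    omega
  · exfalso
    have : (0 : ℕ) ∈ replicate (2 ^ N) 1 := by
      rw [← h]
      simp [mem_append, mem_replicate]
    have := eq_of_mem_replicate this
    omega

/-- `G` generates the test language up to the empty word. -/
def GenTest (G : Grammar) : Prop := lang G \ {[]} = testLang \ {[]}

lemma GenTest.mem_iff (h : GenTest G) {w : List ℕ} (hw : w ≠ []) :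
    w ∈ lang G ↔ w ∈ testLang := by
  have h1 := Set.ext_iff.1 h w
  simp only [Set.mem_sdiff, Set.mem_singleton_iff, hw, not_false_eq_true, and_true] at h1
  exact h1

lemma replicate_mem (h : GenTest G) (N : ℕ) : replicate (2 ^ N) 1 ∈ lang G := by
  rw [h.mem_iff (by simp)]
  right
  exact ⟨N, rfl⟩

lemma word_mem (h : GenTest G) {m n : ℕ} (hm : 1 ≤ m) (hn : 1 ≤ n) :
    replicate m 1 ++ (replicate n 0 ++ replicate m 1) ∈ lang G := by
  rw [h.mem_iff]
  · left
    exact ⟨m, n, hm, hn, rfl⟩
  · intro h
    have := congrArg length h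
    simp at this
    omega

lemma one_mem (h : GenTest G) : 1 ∈ G.T := by
  have := (mem_lang.1 (replicate_mem h 0)).1
  exact this 1 (by simp)

lemma zero_mem (h : GenTest G) : 0 ∈ G.T := by
  have := (mem_lang.1 (word_mem h (m := 1) (n := 1) le_rfl le_rfl)).1
  exact this 0 (by simp)

/-- Derived terminal words belong to the test language. -/
lemma derived_mem (h : GenTest G) {t : ℕ} {w : List ℕ} (hw : w ≠ [])
    (hd : Der G t [G.S] w) (hT : ∀ x ∈ w, x ∈ G.T) : w ∈ testLang :=
  (h.mem_iff hw).1 (mem_lang.2 ⟨hT, t, hd⟩)

lemma T_replicate (h : GenTest G) (k : ℕ) : ∀ x ∈ replicate k 1, x ∈ G.T := by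
  intro x hx
  rw [eq_of_mem_replicate hx]
  exact one_mem h

lemma T_replicate0 (h : GenTest G) (k : ℕ) : ∀ x ∈ replicate k 0, x ∈ G.T := by
  intro x hx
  rw [eq_of_mem_replicate hx]
  exact zero_mem h

lemma der_replicate_pos (hp : Propagating G) {n X k x : ℕ}
    (h : Der G n [X] (replicate k x)) : 1 ≤ k := by
  have := der_length hp h
  simpa using this

/-- If `b → b` is a production then every symbol deriving a power of `b` derives a short one. -/
lemma exists_short (hp : Propagating G) (h11 : (1, [1]) ∈ G.P) :
    ∃ C : ℕ, ∀ X ∈ G.V, ∀ j x, Der G j [X] (replicate x 1) →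
      ∃ x', 1 ≤ x' ∧ x' ≤ C ∧ Der G j [X] (replicate x' 1) := by
  have hold : ∀ k, Der G k [1] [1] := by
    intro k
    induction k with
    | zero => rfl
    | succ k ih =>
      rw [der_single_succ]
      exact ⟨[1], h11, ih⟩
  have key : ∀ X : ℕ, ∃ c : ℕ, ∀ j x, Der G j [X] (replicate x 1) →
      ∃ x', 1 ≤ x' ∧ x' ≤ c ∧ Der G j [X] (replicate x' 1) := by
    intro X
    by_cases hX : ∃ j, ∃ x, Der G j [X] (replicate x 1)
    · classical
      obtain ⟨x₀, hx₀⟩ := Nat.find_spec hX
      refine ⟨x₀, ?_⟩
      intro j x hjx
      have hle : Nat.find hX ≤ j := Nat.find_min' hX ⟨x, hjx⟩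
      refine ⟨x₀, der_replicate_pos hp hx₀, le_rfl, ?_⟩
      have := hx₀.trans (der_replicate (hold (j - Nat.find hX)) x₀)
      rwa [show Nat.find hX + (j - Nat.find hX) = j by omega] at this
    · refine ⟨0, ?_⟩
      intro j x hjx
      exact absurd ⟨j, x, hjx⟩ hX
  choose c hc using key
  refine ⟨G.V.sup c, ?_⟩
  intro X hX j x hjx
  obtain ⟨x', h1, h2, h3⟩ := hc X j x hjx
  exact ⟨x', h1, h2.trans (Finset.le_sup hX), h3⟩

/-- If a short word derives a long power of `b`, then one of its symbols derives a large part. -/
lemma exists_large {n C : ℕ} {α : List ℕ} {x : ℕ} (h : Der G n α (replicate x 1))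
    (hlt : α.length * C < x) :
    ∃ α₁ X α₂ a x' b, α = α₁ ++ ([X] ++ α₂) ∧ Der G n α₁ (replicate a 1) ∧
      Der G n [X] (replicate x' 1) ∧ Der G n α₂ (replicate b 1) ∧ a + (x' + b) = x ∧ C < x' := by
  induction α generalizing x with
  | nil =>
    rw [der_nil] at h
    have := congrArg length h
    simp at this
    omega
  | cons X α ih =>
    rw [← singleton_append] at h
    obtain ⟨k₁, k₂, h1, h2, h3⟩ := der_append_replicate h
    by_cases hk : C < k₁
    · refine ⟨[], X, α, 0, k₁, k₂, by simp, ?_, h1, h2, by omega, hk⟩
      exact der_nil.2 rfl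
    · have : α.length * C < k₂ := by
        rw [length_cons, Nat.succ_mul] at hlt
        omega
      obtain ⟨α₁, X', α₂, a, x', b, e1, e2, e3, e4, e5, e6⟩ := ih h2 this
      refine ⟨X :: α₁, X', α₂, k₁ + a, x', b, by rw [e1]; rfl, ?_, e3, e4, by omega, e6⟩
      rw [replicate_add, ← singleton_append]
      exact h1.append e2

/-- The production `b → b` is impossible. -/
lemma no_one_one (hp : Propagating G) (hL : GenTest G) : (1, [1]) ∉ G.P := by
  intro h11
  obtain ⟨C, hC⟩ := exists_short hp h11
  obtain ⟨r, hr1, hr⟩ := exists_bound G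
  set N := r * C + 1 with hN
  have hN2 : r * C + 1 < 2 ^ N := by
    rw [← hN]; exact Nat.lt_two_pow_self
  obtain ⟨T, hT⟩ := (mem_lang.1 (replicate_mem hL (N + 1))).2
  have hpow : 2 ^ (N + 1) = 2 * 2 ^ N := by rw [pow_succ]; ring
  have claim : ∀ t, t ≤ T → ∃ u X v i x l, Der G t [G.S] (u ++ ([X] ++ v)) ∧
      Der G (T - t) u (replicate i 1) ∧ Der G (T - t) [X] (replicate x 1) ∧
      Der G (T - t) v (replicate l 1) ∧ i + (x + l) = 2 ^ (N + 1) ∧ 2 ^ N < x := by
    intro t
    induction t with
    | zero =>
      intro _
      refine ⟨[], G.S, [], 0, 2 ^ (N + 1), 0, rfl, der_nil.2 rfl, hT, der_nil.2 rfl, by omega, ?_⟩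
      omega
    | succ t ih =>
      intro ht
      obtain ⟨u, X, v, i, x, l, h1, h2, h3, h4, h5, h6⟩ := ih (by omega)
      have e : T - t = (T - (t + 1)) + 1 := by omega
      rw [e] at h2 h3 h4
      obtain ⟨u', hu1, hu2⟩ := der_succ.1 h2
      obtain ⟨v', hv1, hv2⟩ := der_succ.1 h4
      obtain ⟨α, hα1, hα2⟩ := der_single_succ.1 h3
      have hlen : α.length * C < x := by
        have h7 : α.length ≤ r := hr _ hα1
        have h8 : α.length * C ≤ r * C := Nat.mul_le_mul_right _ h7
        omega
      obtain ⟨α₁, X', α₂, a, x', b, e1, e2, e3, e4, e5, e6⟩ := exists_large hα2 hlen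
      have hreach : Der G (t + 1) [G.S] ((u' ++ α₁) ++ ([X'] ++ (α₂ ++ v'))) := by
        have : Step G (u ++ ([X] ++ v)) (u' ++ (α ++ v')) :=
          step_append.2 ⟨u', α ++ v', rfl, hu1,
            step_append.2 ⟨α, v', rfl, step_single.2 hα1, hv1⟩⟩
        have h9 := h1.trans (der_one.2 this)
        rw [e1] at h9
        simpa [append_assoc] using h9
      have hX'V : X' ∈ G.V := by
        apply der_mem_V hreach (by simpa using G.S_mem)
        simp
      refine ⟨u' ++ α₁, X', α₂ ++ v', i + a, x', b + l, hreach, ?_, e3, ?_, by omega, ?_⟩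
      · rw [replicate_add]; exact hu2.append e2
      · rw [replicate_add]; exact e4.append hv2
      · obtain ⟨x'', g1, g2, g3⟩ := hC X' hX'V _ _ e3
        have hnew : Der G (t + 1 + (T - (t + 1))) [G.S]
            (replicate (i + a + (x'' + (b + l))) 1) := by
          refine hreach.trans ?_
          rw [replicate_add, replicate_add, replicate_add, replicate_add]
          exact (hu2.append e2).append (g3.append (e4.append hv2))
        have hne : replicate (i + a + (x'' + (b + l))) 1 ≠ [] := by
          intro h
          have := congrArg length h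
          simp at this
          omega
        obtain ⟨N', hN'⟩ := test_pow (derived_mem hL hne hnew (T_replicate hL _))
        have hlt : 2 ^ N' < 2 ^ (N + 1) := by omega
        have hlt' : N' < N + 1 := (Nat.pow_lt_pow_iff_right (by norm_num)).1 hlt
        have hle : 2 ^ N' ≤ 2 ^ N := Nat.pow_le_pow_right (by norm_num) (by omega)
        omega
  obtain ⟨u, X, v, i, x, l, _, _, h3, _, _, h6⟩ := claim T le_rfl
  rw [Nat.sub_self, der_zero] at h3
  have := congrArg length h3
  simp at this
  have h7 : 1 ≤ 2 ^ N := Nat.one_le_two_pow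
  omega

/-- Any terminal that `b` can be rewritten to in one unary step is `b`. -/
lemma one_unary (hL : GenTest G) {z : ℕ} (hz : z ∈ G.T) (h : (1, [z]) ∈ G.P) : z = 1 := by
  obtain ⟨t, ht⟩ := (mem_lang.1 (replicate_mem hL 1)).2
  have h1 : Der G (t + 1) [G.S] (replicate (2 ^ 1) z) :=
    ht.trans (der_replicate (der_of_prod h) _)
  have h2 : replicate (2 ^ 1) z ∈ testLang := by
    apply derived_mem hL (by simp) h1
    intro x hx
    rw [eq_of_mem_replicate hx]
    exact hz
  rcases h2 with ⟨m, n, hm, hn, h⟩ | ⟨N, h⟩
  · exfalso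
    have := congrArg length h
    simp at this
    omega
  · have : z ∈ replicate (2 ^ 1) z := by simp
    rw [h] at this
    exact eq_of_mem_replicate this

/-- The situation: a reachable word `u y v` which derives in `j` steps a word `b^m a^n b^m` such
that `y` derives the factor `b^i` inside the left block `b^m`. -/
def Sit (G : Grammar) (j y i : ℕ) : Prop :=
  ∃ t u v i₁ i₂ n, Der G t [G.S] (u ++ ([y] ++ v)) ∧ Der G j u (replicate i₁ 1) ∧
    Der G j [y] (replicate i 1) ∧
    Der G j v (replicate i₂ 1 ++ (replicate n 0 ++ replicate (i₁ + (i + i₂)) 1)) ∧ 1 ≤ n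

lemma Sit.pos (hp : Propagating G) {j y i : ℕ} (h : Sit G j y i) : 1 ≤ i := by
  obtain ⟨t, u, v, i₁, i₂, n, h1, h2, h3, h4, h5⟩ := h
  exact der_replicate_pos hp h3

lemma Sit.mem_V {j y i : ℕ} (h : Sit G j y i) : y ∈ G.V := by
  obtain ⟨t, u, v, i₁, i₂, n, h1, h2, h3, h4, h5⟩ := h
  apply der_mem_V h1 (by simpa using G.S_mem)
  simp

/-- In the situation the symbol cannot derive another power of `b`. -/
lemma Sit.unique (hL : GenTest G) {j y i i' : ℕ} (h : Sit G j y i)
    (h' : Der G j [y] (replicate i' 1)) : i' = i := by
  obtain ⟨t, u, v, i₁, i₂, n, h1, h2, h3, h4, h5⟩ := h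
  have hnew : Der G (t + j) [G.S] (replicate i₁ 1 ++ (replicate i' 1 ++
      (replicate i₂ 1 ++ (replicate n 0 ++ replicate (i₁ + (i + i₂)) 1)))) :=
    h1.trans (h2.append (h'.append h4))
  have e : replicate i₁ 1 ++ (replicate i' 1 ++
      (replicate i₂ 1 ++ (replicate n 0 ++ replicate (i₁ + (i + i₂)) 1))) =
      replicate (i₁ + (i' + i₂)) 1 ++ (replicate n 0 ++ replicate (i₁ + (i + i₂)) 1) := by
    rw [replicate_add (m := i₁) (n := i' + i₂), replicate_add (m := i') (n := i₂)]
    simp only [append_assoc]
  rw [e] at hnew
  have hmem : replicate (i₁ + (i' + i₂)) 1 ++ (replicate n 0 ++ replicate (i₁ + (i + i₂)) 1) ∈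
      testLang := by
    apply derived_mem hL _ hnew
    · intro x hx
      rw [mem_append, mem_append] at hx
      rcases hx with hx | hx | hx
      · exact T_replicate hL _ x hx
      · exact T_replicate0 hL _ x hx
      · exact T_replicate hL _ x hx
    · intro h
      have := congrArg length h
      simp at this
      omega
  have := test_outer h5 hmem
  omega

/-- In the situation the only terminal that can be derived from the symbol is `b`. -/
lemma Sit.eq_one (hp : Propagating G) (hL : GenTest G) {j y i z : ℕ} (h : Sit G j y i)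
    (hz : z ∈ G.T) (h' : Der G j [y] [z]) : z = 1 := by
  have hpos := h.pos hp
  have h0 := h
  obtain ⟨t, u, v, i₁, i₂, n, h1, h2, h3, h4, h5⟩ := h
  have hnew : Der G (t + j) [G.S] (replicate i₁ 1 ++ ([z] ++
      (replicate i₂ 1 ++ (replicate n 0 ++ replicate (i₁ + (i + i₂)) 1)))) :=
    h1.trans (h2.append (h'.append h4))
  have hmem : replicate i₁ 1 ++ ([z] ++
      (replicate i₂ 1 ++ (replicate n 0 ++ replicate (i₁ + (i + i₂)) 1))) ∈ testLang := by
    apply derived_mem hL _ hnew
    · intro x hx
      rw [mem_append, mem_append, mem_append, mem_append] at hx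
      rcases hx with hx | hx | hx | hx | hx
      · exact T_replicate hL _ x hx
      · rw [mem_singleton] at hx
        rw [hx]; exact hz
      · exact T_replicate hL _ x hx
      · exact T_replicate0 hL _ x hx
      · exact T_replicate hL _ x hx
    · intro h
      have := congrArg length h
      simp at this
  rcases hmem with ⟨m', n', hm', hn', h⟩ | ⟨N, h⟩
  · have hz01 : z = 0 ∨ z = 1 := by
      have : z ∈ replicate m' 1 ++ (replicate n' 0 ++ replicate m' 1) := by
        rw [← h]; simp
      simp only [mem_append, mem_replicate] at this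
      rcases this with h | h | h
      · exact Or.inr h.2
      · exact Or.inl h.2
      · exact Or.inr h.2
    rcases hz01 with rfl | rfl
    · exfalso
      obtain ⟨n', rfl⟩ : ∃ n'', n' = n'' + 1 := ⟨n' - 1, by omega⟩
      rw [replicate_succ (n := n'), singleton_append, cons_append] at h
      obtain ⟨g1, g2⟩ := run_eq h
      have g3 := congrArg (List.count 1) g2
      simp [List.count_append, List.count_replicate] at g3
      omega
    · rfl
  · exfalso
    have : (0 : ℕ) ∈ replicate (2 ^ N) 1 := by
      rw [← h]
      simp only [mem_append, mem_replicate]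
      right; right; right; left
      exact ⟨by omega, trivial⟩
    have := eq_of_mem_replicate this
    omega

/-- Descending in the derivation from a situation. -/
lemma Sit.descend {j k y i : ℕ} (h : Sit G (k + j) y i) {β₁ : List ℕ} {z : ℕ} {β₂ : List ℕ}
    {a x b : ℕ} (hd : Der G k [y] (β₁ ++ ([z] ++ β₂))) (h1 : Der G j β₁ (replicate a 1))
    (h2 : Der G j [z] (replicate x 1)) (h3 : Der G j β₂ (replicate b 1)) (hi : a + (x + b) = i) :
    Sit G j z x := by
  obtain ⟨t, u, v, i₁, i₂, n, g1, g2, g3, g4, g5⟩ := h
  obtain ⟨u', hu1, hu2⟩ := der_add.1 g2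
  obtain ⟨v', hv1, hv2⟩ := der_add.1 g4
  refine ⟨t + k, u' ++ β₁, β₂ ++ v', i₁ + a, b + i₂, n, ?_, ?_, h2, ?_, g5⟩
  · have := g1.trans (hu1.append (hd.append hv1))
    simpa [append_assoc] using this
  · rw [replicate_add]
    exact hu2.append h1
  · have e : replicate (b + i₂) 1 ++ (replicate n 0 ++ replicate (i₁ + a + (x + (b + i₂))) 1) =
        replicate b 1 ++ (replicate i₂ 1 ++ (replicate n 0 ++
          replicate (i₁ + (i + i₂)) 1)) := by
      rw [replicate_add (m := b), append_assoc, ← hi]
      congr 3
      congr 1
      omega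
    rw [e]
    exact h3.append hv2

/-- Sufficient conditions for growth. -/
lemma growth (hp : Propagating G) (hL : GenTest G) (F : ℕ → Prop)
    (hF1 : ∀ X, F X → ∀ α, (X, α) ∈ G.P → ∃ y β, F y ∧ α = y :: β)
    (hF2 : ∀ X, F X → ∀ k z, Der G (k + 1) [X] [z] → z ∈ G.T) :
    ∃ K : ℕ, 1 ≤ K ∧ ∀ j y i, F y → Sit G j y i → j < K * i := by
  classical
  have unary : ∀ {k l : ℕ} {y z : ℕ}, Der G (k + l) [y] [z] →
      ∃ z', Der G k [y] [z'] ∧ Der G l [z'] [z] := by
    intro k l y z h
    obtain ⟨β, h1, h2⟩ := der_add.1 h
    have h3 := der_length hp h1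
    have h4 := der_length hp h2
    simp only [length_singleton] at h3 h4
    obtain ⟨z', rfl⟩ := length_eq_one_iff.1 (le_antisymm h4 h3)
    exact ⟨z', h1, h2⟩
  have nolong : ∀ j y i, F y → Sit G j y i → ∃ k, ∀ z, ¬ Der G k [y] [z] := by
    intro j y i hy hs
    by_contra hcon
    push Not at hcon
    obtain ⟨z, hz⟩ := hcon (j + 1)
    obtain ⟨z', h1, h2⟩ := unary hz
    have hzT : z ∈ G.T := hF2 y hy j z hz
    have hz' : z' = 1 := by
      cases j with
      | zero =>
        rw [der_zero] at h1
        obtain ⟨t, u, v, i₁, i₂, n, g1, g2, g3, g4, g5⟩ := hs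
        rw [der_zero, h1] at g3
        have : z' ∈ replicate i 1 := by rw [← g3]; simp
        exact eq_of_mem_replicate this
      | succ j => exact hs.eq_one hp hL (hF2 y hy j z' h1) h1
    subst hz'
    have hprod : (1, [z]) ∈ G.P := step_single.1 (der_one.1 h2)
    have := one_unary hL hzT hprod
    subst this
    exact no_one_one hp hL hprod
  have bound : ∀ y : ℕ, ∃ k : ℕ, (∃ k, ∀ z, ¬ Der G k [y] [z]) → ∀ z, ¬ Der G k [y] [z] := by
    intro y
    by_cases h : ∃ k, ∀ z, ¬ Der G k [y] [z]
    · obtain ⟨k, hk⟩ := h
      exact ⟨k, fun _ => hk⟩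
    · exact ⟨0, fun h' => absurd h' h⟩
  choose κ hκ using bound
  refine ⟨G.V.sup κ + 1, by omega, ?_⟩
  set K := G.V.sup κ + 1 with hK
  have lead : ∀ k y β, F y → Der G k [y] β → ∃ y' β', F y' ∧ β = y' :: β' := by
    intro k
    induction k with
    | zero =>
      intro y β hy h
      rw [der_zero] at h
      exact ⟨y, [], hy, h.symm⟩
    | succ k ih =>
      intro y β hy h
      obtain ⟨α, h1, h2⟩ := der_single_succ.1 h
      obtain ⟨y', α', hy', rfl⟩ := hF1 y hy α h1
      obtain ⟨v₁, v₂, rfl, h3, h4⟩ := der_cons.1 h2
      obtain ⟨y'', β'', hy'', rfl⟩ := ih y' v₁ hy' h3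
      exact ⟨y'', β'' ++ v₂, hy'', rfl⟩
  intro j
  induction j using Nat.strong_induction_on with
  | _ j ih =>
    intro y i hy hs
    have hpos := hs.pos hp
    by_cases hjK : j < K
    · calc j < K := hjK
        _ ≤ K * i := Nat.le_mul_of_pos_right _ hpos
    · push Not at hjK
      obtain ⟨l, rfl⟩ : ∃ l, j = K + l := ⟨j - K, by omega⟩
      have hs' := hs
      obtain ⟨t, u, v, i₁, i₂, n, g1, g2, g3, g4, g5⟩ := hs'
      obtain ⟨β, hβ1, hβ2⟩ := der_add.1 g3
      obtain ⟨y', β', hy', rfl⟩ := lead K y β hy hβ1
      have hβ' : β' ≠ [] := by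
        rintro rfl
        have hk := hκ y (nolong _ y i hy hs)
        have hle : κ y ≤ K := (Finset.le_sup (f := κ) hs.mem_V).trans (by omega)
        obtain ⟨d, hd⟩ : ∃ d, K = κ y + d := ⟨K - κ y, by omega⟩
        rw [hd] at hβ1
        obtain ⟨z', h1, _⟩ := unary hβ1
        exact hk z' h1
      rw [← singleton_append] at hβ2
      obtain ⟨x, b, h1, h2, h3⟩ := der_append_replicate hβ2
      have hb : 1 ≤ b := by
        have h4 := der_length hp h2
        rw [length_replicate] at h4
        have h5 := length_pos_iff.2 hβ'
        omega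
      have hs'' : Sit G l y' x := by
        apply Sit.descend (β₁ := []) (β₂ := β') (a := 0) (b := b) hs
        · simpa using hβ1
        · exact der_nil.2 rfl
        · exact h1
        · exact h2
        · omega
      have := ih l (by omega) y' x hy' hs''
      have hx : x + 1 ≤ i := by omega
      calc K + l < K + K * x := by omega
        _ = K * (x + 1) := by ring
        _ ≤ K * i := Nat.mul_le_mul_left _ hx

/-- The core argument: if the symbols satisfying `F` grow in the left block and every reachable
word has such a symbol among its first two symbols, we get a contradiction. -/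
theorem core (hL : GenTest G) (F : ℕ → Prop) (K : ℕ)
    (hgrow : ∀ j y i, F y → Sit G j y i → j < K * i)
    (hshape : ∀ t β, Der G t [G.S] β → β.length ≤ 1 ∨ (∃ y γ, F y ∧ β = [y] ++ γ) ∨
      ∃ X y γ, F y ∧ β = [X] ++ ([y] ++ γ)) : False := by
  classical
  obtain ⟨r, hr1, hr⟩ := exists_bound G
  set D : Finset (List ℕ) := G.V.image (fun y => [y]) ∪
    (G.V ×ˢ G.V).image (fun p => [p.1] ++ [p.2]) with hD
  set M := D.card + 1 with hM
  set J := K * M with hJ
  set n := 2 * r ^ J + 1 with hn
  -- for every `m` the relevant decomposition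
  have key : ∀ m ∈ Finset.Icc 1 M, ∃ δ ∈ D, ∃ t γ y, Der G t [G.S] (δ ++ γ) ∧
      Der G J δ (replicate m 1 ++ replicate y 0) ∧ 1 ≤ y ∧ y < n ∧
      Der G J γ (replicate (n - y) 0 ++ replicate m 1) := by
    intro m hm
    rw [Finset.mem_Icc] at hm
    obtain ⟨T, hT⟩ := (mem_lang.1 (word_mem hL hm.1 (n := n) (by omega))).2
    have hlenw : (replicate m 1 ++ (replicate n 0 ++ replicate m 1)).length = m + (n + m) := by
      simp
    have hJT : J ≤ T := by
      by_contra hlt
      push Not at hlt
      have h1 := der_length_le hr hT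
      rw [hlenw, length_singleton, mul_one] at h1
      have h2 : r ^ T ≤ r ^ J := Nat.pow_le_pow_right (by omega) hlt.le
      omega
    obtain ⟨t, rfl⟩ : ∃ t, T = t + J := ⟨T - J, by omega⟩
    obtain ⟨β, hβ1, hβ2⟩ := der_add.1 hT
    have hβV := der_mem_V hβ1 (by simpa using G.S_mem)
    -- a general treatment of a decomposition `β = δ ++ γ`
    have treat : ∀ δ γ : List ℕ, β = δ ++ γ → δ.length ≤ 2 →
        (∀ v₁, Der G J δ v₁ → ∀ v₂, Der G J γ v₂ →
          v₁ ++ v₂ = replicate m 1 ++ (replicate n 0 ++ replicate m 1) → v₁.length ≤ m →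
          False) →
        ∃ y, Der G J δ (replicate m 1 ++ replicate y 0) ∧ 1 ≤ y ∧ y < n ∧
          Der G J γ (replicate (n - y) 0 ++ replicate m 1) := by
      intro δ γ hβ hδ hsmall
      rw [hβ] at hβ2
      obtain ⟨v₁, v₂, e, h1, h2⟩ := der_append.1 hβ2
      have hv₁ : v₁.length ≤ r ^ J * 2 := by
        refine (der_length_le hr h1).trans ?_
        exact Nat.mul_le_mul_left _ hδ
      have hlong : m < v₁.length := by
        by_contra hcon
        push Not at hcon
        exact hsmall v₁ h1 v₂ h2 e.symm hcon
      have hv₁n : v₁.length < n := by omega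
      refine ⟨v₁.length - m, ?_, by omega, by omega, ?_⟩
      · have e1 : v₁ = (replicate m 1 ++ (replicate n 0 ++ replicate m 1)).take v₁.length := by
          rw [e]; simp
        have e2 : (replicate m 1 ++ (replicate n 0 ++ replicate m 1)).take v₁.length =
            replicate m 1 ++ replicate (v₁.length - m) 0 := by
          rw [take_append, take_append]
          simp only [length_replicate, take_replicate]
          have e3 : min v₁.length m = m := by omega
          have e4 : min (v₁.length - m) n = v₁.length - m := by omega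
          have e5 : min (v₁.length - m - n) m = 0 := by omega
          rw [e3, e4, e5]
          simp
        rw [← e2, ← e1]
        exact h1
      · have e1 : v₂ = (replicate m 1 ++ (replicate n 0 ++ replicate m 1)).drop v₁.length := by
          rw [e]; simp
        have e2 : (replicate m 1 ++ (replicate n 0 ++ replicate m 1)).drop v₁.length =
            replicate (n - (v₁.length - m)) 0 ++ replicate m 1 := by
          rw [drop_append, drop_append]
          simp only [length_replicate, drop_replicate]
          have e3 : m - v₁.length = 0 := by omega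
          have e5 : m - (v₁.length - m - n) = m := by omega
          rw [e3, e5]
          simp
        rw [← e2, ← e1]
        exact h2
    have hJpos : K * m ≤ J := Nat.mul_le_mul_left _ hm.2
    rcases hshape t β hβ1 with hlen | ⟨y, γ, hy, hβ⟩ | ⟨X, y, γ, hy, hβ⟩
    · exfalso
      have h1 := der_length_le hr hβ2
      rw [hlenw] at h1
      have h2 : r ^ J * β.length ≤ r ^ J * 1 := Nat.mul_le_mul_left _ hlen
      omega
    · obtain ⟨y', h1, h2, h3, h4⟩ := treat [y] γ hβ (by simp) (by
        intro v₁ hv₁ v₂ hv₂ e hle
        have hs : Sit G J y v₁.length := by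
          refine ⟨t, [], γ, 0, m - v₁.length, n, ?_, der_nil.2 rfl, ?_, ?_, by omega⟩
          · rw [hβ] at hβ1; simpa using hβ1
          · have e1 : v₁ = (replicate m 1 ++ (replicate n 0 ++ replicate m 1)).take
                v₁.length := by
              rw [← e]; simp
            have e2 : (replicate m 1 ++ (replicate n 0 ++ replicate m 1)).take v₁.length =
                replicate v₁.length 1 := by
              rw [take_append_of_le_length (by simpa using hle), take_replicate,
                min_eq_left hle]
            rw [← e2, ← e1]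
            exact hv₁
          · have e1 : v₂ = (replicate m 1 ++ (replicate n 0 ++ replicate m 1)).drop
                v₁.length := by
              rw [← e]; simp
            have e2 : (replicate m 1 ++ (replicate n 0 ++ replicate m 1)).drop v₁.length =
                replicate (m - v₁.length) 1 ++ (replicate n 0 ++ replicate m 1) := by
              rw [drop_append_of_le_length (by simpa using hle), drop_replicate]
            rw [show 0 + (v₁.length + (m - v₁.length)) = m by omega, ← e2, ← e1]
            exact hv₂
        have h5 := hgrow J y v₁.length hy hs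
        have h6 : K * v₁.length ≤ K * m := Nat.mul_le_mul_left _ hle
        omega)
      refine ⟨[y], ?_, t, γ, y', ?_, h1, h2, h3, h4⟩
      · rw [hD, Finset.mem_union]
        left
        rw [Finset.mem_image]
        exact ⟨y, hβV y (by rw [hβ]; simp), rfl⟩
      · rw [hβ] at hβ1; exact hβ1
    · obtain ⟨y', h1, h2, h3, h4⟩ := treat ([X] ++ [y]) γ (by rw [hβ, append_assoc]) (by simp) (by
        intro v₁ hv₁ v₂ hv₂ e hle
        obtain ⟨p, q, rfl, hp1, hq1⟩ := der_append.1 hv₁
        rw [length_append] at hle
        have hs : Sit G J y q.length := by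
          refine ⟨t, [X], γ, p.length, m - (p.length + q.length), n, ?_, ?_, ?_, ?_, by omega⟩
          · rw [hβ] at hβ1; exact hβ1
          · have e1 : p = (replicate m 1 ++ (replicate n 0 ++ replicate m 1)).take
                p.length := by
              rw [← e]; simp
            have e2 : (replicate m 1 ++ (replicate n 0 ++ replicate m 1)).take p.length =
                replicate p.length 1 := by
              rw [take_append_of_le_length (by simp; omega), take_replicate,
                min_eq_left (by omega)]
            rw [← e2, ← e1]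
            exact hp1
          · have e1 : q = ((replicate m 1 ++ (replicate n 0 ++ replicate m 1)).take
                (p.length + q.length)).drop p.length := by
              rw [← e, take_left' (by simp)]; simp
            have e2 : ((replicate m 1 ++ (replicate n 0 ++ replicate m 1)).take
                (p.length + q.length)).drop p.length = replicate q.length 1 := by
              rw [take_append_of_le_length (by simp; omega), take_replicate,
                min_eq_left (by omega), drop_replicate]
              congr 1
              omega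
            rw [← e2, ← e1]
            exact hq1
          · have e1 : v₂ = (replicate m 1 ++ (replicate n 0 ++ replicate m 1)).drop
                (p.length + q.length) := by
              rw [← e]; simp
            have e2 : (replicate m 1 ++ (replicate n 0 ++ replicate m 1)).drop
                (p.length + q.length) =
                replicate (m - (p.length + q.length)) 1 ++ (replicate n 0 ++
                  replicate m 1) := by
              rw [drop_append_of_le_length (by simp; omega), drop_replicate]
            rw [show p.length + (q.length + (m - (p.length + q.length))) = m by omega, ← e2,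
              ← e1]
            exact hv₂
        have h5 := hgrow J y q.length hy hs
        have h6 : K * q.length ≤ K * m := Nat.mul_le_mul_left _ (by omega)
        omega)
      refine ⟨[X] ++ [y], ?_, t, γ, y', ?_, h1, h2, h3, h4⟩
      · rw [hD, Finset.mem_union]
        right
        rw [Finset.mem_image]
        refine ⟨(X, y), ?_, rfl⟩
        rw [Finset.mem_product]
        exact ⟨hβV X (by rw [hβ]; simp), hβV y (by rw [hβ]; simp)⟩
      · rw [hβ] at hβ1
        rw [append_assoc]
        exact hβ1
  choose! f hf1 hf2 using key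
  obtain ⟨m, hm, m', hm', hne, heq⟩ := Finset.exists_ne_map_eq_of_card_lt_of_maps_to
    (s := Finset.Icc 1 M) (t := D) (f := f) (by rw [Nat.card_Icc]; omega) hf1
  obtain ⟨t, γ, y, h1, h2, h3, h4, h5⟩ := hf2 m hm
  obtain ⟨t', γ', y', h1', h2', h3', h4', h5'⟩ := hf2 m' hm'
  rw [← heq] at h1' h2'
  have hnew : Der G (t + J) [G.S] ((replicate m' 1 ++ replicate y' 0) ++
      (replicate (n - y) 0 ++ replicate m 1)) := h1.trans (h2'.append h5)
  have e : (replicate m' 1 ++ replicate y' 0) ++ (replicate (n - y) 0 ++ replicate m 1) =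
      replicate m' 1 ++ (replicate (y' + (n - y)) 0 ++ replicate m 1) := by
    rw [replicate_add (m := y')]
    simp only [append_assoc]
  rw [e] at hnew
  have hmem : replicate m' 1 ++ (replicate (y' + (n - y)) 0 ++ replicate m 1) ∈ testLang := by
    apply derived_mem hL _ hnew
    · intro x hx
      rw [mem_append, mem_append] at hx
      rcases hx with hx | hx | hx
      · exact T_replicate hL _ x hx
      · exact T_replicate0 hL _ x hx
      · exact T_replicate hL _ x hx
    · intro h
      have := congrArg length h
      simp at this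
      omega
  have := test_outer (by omega) hmem
  exact hne this.symm

end Pool.Agent.Helper76.EOL
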