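import Mathlib

/-!
# EOL grammars, EOL forms and their interpretations (definitions)

Symbols are natural numbers, so that all alphabets are finite sets of symbols taken from one
fixed infinite set and languages of different grammars can be compared.
-/

namespace Pool.Agent.Helper76.EOL

/-- An EOL grammar `G = (V, Σ, P, S)`: `V` is the finite alphabet, `T = Σ ⊆ V` the terminal
alphabet, `S ∈ V - Σ` the start symbol and `P` a finite set of productions `X → α` with `X ∈ V`,
`α ∈ V^*`, containing at least one production for every `X ∈ V`. -/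
structure Grammar where
  V : Finset ℕ
  T : Finset ℕ
  P : Finset (ℕ × List ℕ)
  S : ℕ
  T_sub : T ⊆ V
  S_mem : S ∈ V
  S_notMem : S ∉ T
  prod_wf : ∀ p ∈ P, p.1 ∈ V ∧ ∀ x ∈ p.2, x ∈ V
  total : ∀ X ∈ V, ∃ α, (X, α) ∈ P

/-- One derivation step: every symbol of the word is rewritten simultaneously by some
production. -/
inductive Step (G : Grammar) : List ℕ → List ℕ → Prop
  | nil : Step G [] []
  | cons {X : ℕ} {α u v : List ℕ} : (X, α) ∈ G.P → Step G u v → Step G (X :: u) (α ++ v)

/-- The language `L(G)`: the words over the terminal alphabet derivable from `S`. -/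
def lang (G : Grammar) : Set (List ℕ) :=
  {w | (∀ x ∈ w, x ∈ G.T) ∧ Relation.ReflTransGen (Step G) [G.S] w}

/-- `G'` is an interpretation of the EOL form `G`. -/
def Interprets (G' G : Grammar) : Prop :=
  ∃ μ : ℕ → Finset ℕ,
    (∀ b ∈ G.T, μ b ⊆ G'.T) ∧
    (∀ A ∈ G.V \ G.T, μ A ⊆ G'.V \ G'.T) ∧
    (∀ X ∈ G.V, ∀ Y ∈ G.V, X ≠ Y → Disjoint (μ X) (μ Y)) ∧
    (∀ p ∈ G'.P, ∃ q ∈ G.P, p.1 ∈ μ q.1 ∧ List.Forall₂ (fun x y => x ∈ μ y) p.2 q.2) ∧
    G'.S ∈ μ G.S

/-- The family `ℒ(G)` of languages of the interpretations of `G`. -/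
def family (G : Grammar) : Set (Set (List ℕ)) :=
  {L | ∃ G' : Grammar, Interprets G' G ∧ L = lang G'}

/-- The family `ℒ(EOL)` of all EOL languages. -/
def eolFamily : Set (Set (List ℕ)) :=
  {L | ∃ G : Grammar, L = lang G}

/-- Two languages are identified when they differ at most by the empty word. -/
def SameLang (L L' : Set (List ℕ)) : Prop :=
  L \ {[]} = L' \ {[]}

/-- Two families are equal when each language of one equals, up to the empty word, a language of
the other. -/
def SameFamily (A B : Set (Set (List ℕ))) : Prop :=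
  (∀ L ∈ A, ∃ L' ∈ B, SameLang L L') ∧ (∀ L ∈ B, ∃ L' ∈ A, SameLang L L')

/-- The EOL form `G` is EOL-complete. -/
def Complete (G : Grammar) : Prop :=
  SameFamily (family G) eolFamily

/-- `G` is an `{S, a}`-form: `V = {S, a}` and `Σ = {a}`. -/
def IsSaForm (G : Grammar) (a : ℕ) : Prop :=
  G.V = {G.S, a} ∧ G.T = {a}

end Pool.Agent.Helper76.EOL
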