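import Pool.Agent.Helper76.EOLCore

/-!
# Interpretations of `{S, a}`-forms; reversal; one-sided forms are not complete
-/

namespace Pool.Agent.Helper76.EOL

open List

/-- The type of a symbol of an interpretation: `a` for terminals, `S` for nonterminals. -/
def typ (G' F : Grammar) (a x : ℕ) : ℕ := if x ∈ G'.T then a else F.S

lemma sa_ne {F : Grammar} {a : ℕ} (hF : IsSaForm F a) : F.S ≠ a := by
  intro h
  apply F.S_notMem
  rw [hF.2, h]
  simp

/-- Typing of the productions of an interpretation of an `{S, a}`-form. -/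
lemma typed {G' F : Grammar} {a : ℕ} (hF : IsSaForm F a) (h : Interprets G' F) {X : ℕ}
    {α : List ℕ} (hX : (X, α) ∈ G'.P) : (typ G' F a X, α.map (typ G' F a)) ∈ F.P := by
  obtain ⟨μ, h1, h2, h3, h4, h5⟩ := h
  have ha : a ∈ F.T := by rw [hF.2]; simp
  have hS : F.S ∈ F.V \ F.T := by
    rw [Finset.mem_sdiff]; exact ⟨F.S_mem, F.S_notMem⟩
  have key : ∀ x y, y ∈ F.V → x ∈ μ y → typ G' F a x = y := by
    intro x y hy hx
    rw [hF.1, Finset.mem_insert, Finset.mem_singleton] at hy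
    rcases hy with rfl | rfl
    · have := h2 _ hS hx
      rw [Finset.mem_sdiff] at this
      simp [typ, this.2]
    · have := h1 _ ha hx
      simp [typ, this]
  obtain ⟨⟨Y, β⟩, hq, hq1, hq2⟩ := h4 _ hX
  have e1 : typ G' F a X = Y := key X Y (F.prod_wf _ hq).1 hq1
  have hβ := (F.prod_wf _ hq).2
  have e2 : α.map (typ G' F a) = β := by
    clear hX hq hq1 e1
    simp only at hq2 hβ
    induction hq2 with
    | nil => rfl
    | @cons x y l₁ l₂ hxy _ ih =>
      rw [map_cons, key x y (hβ y (by simp)) hxy, ih (fun z hz => hβ z (by simp [hz]))]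
  rw [e1, e2]
  exact hq

lemma typ_eq_a {G' F : Grammar} {a : ℕ} (hF : IsSaForm F a) {x : ℕ} :
    typ G' F a x = a ↔ x ∈ G'.T := by
  unfold typ
  split_ifs with h
  · simp [h]
  · simp [h, sa_ne hF]

lemma typ_eq_S {G' F : Grammar} {a : ℕ} (hF : IsSaForm F a) {x : ℕ} :
    typ G' F a x = F.S ↔ x ∉ G'.T := by
  unfold typ
  split_ifs with h
  · simp [h, (sa_ne hF).symm]
  · simp [h]

/-- The reversal of a grammar. -/
def rev (G : Grammar) : Grammar where
  V := G.V
  T := G.T
  P := G.P.image (fun p => (p.1, p.2.reverse))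
  S := G.S
  T_sub := G.T_sub
  S_mem := G.S_mem
  S_notMem := G.S_notMem
  prod_wf := by
    intro p hp
    rw [Finset.mem_image] at hp
    obtain ⟨q, hq, rfl⟩ := hp
    exact ⟨(G.prod_wf q hq).1, fun x hx => (G.prod_wf q hq).2 x (mem_reverse.1 hx)⟩
  total := by
    intro X hX
    obtain ⟨α, hα⟩ := G.total X hX
    exact ⟨α.reverse, Finset.mem_image.2 ⟨(X, α), hα, rfl⟩⟩

lemma mem_rev {G : Grammar} {X : ℕ} {α : List ℕ} :
    (X, α) ∈ (rev G).P ↔ (X, α.reverse) ∈ G.P := by
  change (X, α) ∈ G.P.image (fun p => (p.1, p.2.reverse)) ↔ _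
  rw [Finset.mem_image]
  constructor
  · rintro ⟨⟨Y, β⟩, h1, h2⟩
    simp only [Prod.mk.injEq] at h2
    obtain ⟨rfl, rfl⟩ := h2
    simpa using h1
  · intro h
    exact ⟨(X, α.reverse), h, by simp⟩

lemma step_rev {G : Grammar} {u v : List ℕ} (h : Step G u v) :
    Step (rev G) u.reverse v.reverse := by
  induction h with
  | nil => exact Step.nil
  | @cons X α u v h _ ih =>
    rw [reverse_cons, reverse_append]
    refine step_append.2 ⟨v.reverse, α.reverse, rfl, ih, step_single.2 ?_⟩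
    rw [mem_rev, reverse_reverse]
    exact h

lemma der_rev {G : Grammar} {n : ℕ} {u v : List ℕ} (h : Der G n u v) :
    Der (rev G) n u.reverse v.reverse := by
  induction n generalizing u with
  | zero => rw [der_zero] at *; rw [h]
  | succ n ih =>
    obtain ⟨w, h1, h2⟩ := h
    exact ⟨w.reverse, step_rev h1, ih h2⟩

lemma rev_rev (G : Grammar) : rev (rev G) = G := by
  cases G
  simp only [rev, Finset.image_image, Function.comp_def, reverse_reverse, Finset.image_id']

lemma mem_lang_rev {G : Grammar} {w : List ℕ} : w ∈ lang (rev G) ↔ w.reverse ∈ lang G := by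
  rw [mem_lang, mem_lang]
  constructor
  · rintro ⟨h1, n, h2⟩
    refine ⟨fun x hx => h1 x (mem_reverse.1 hx), n, ?_⟩
    have := der_rev h2
    rw [rev_rev] at this
    exact this
  · rintro ⟨h1, n, h2⟩
    refine ⟨fun x hx => h1 x (mem_reverse.2 hx), n, ?_⟩
    have := der_rev h2
    rw [reverse_reverse] at this
    exact this

lemma testLang_reverse {w : List ℕ} : w.reverse ∈ testLang ↔ w ∈ testLang := by
  have key : ∀ w : List ℕ, w ∈ testLang → w.reverse ∈ testLang := by
    rintro w (⟨m, n, hm, hn, rfl⟩ | ⟨N, rfl⟩)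
    · left
      exact ⟨m, n, hm, hn, by simp [append_assoc]⟩
    · right
      exact ⟨N, by simp⟩
  constructor
  · intro h
    have := key _ h
    rwa [reverse_reverse] at this
  · exact key w

lemma GenTest.rev {G : Grammar} (h : GenTest G) : GenTest (rev G) := by
  ext w
  have h1 := Set.ext_iff.1 h w.reverse
  simp only [Set.mem_sdiff, Set.mem_singleton_iff] at h1 ⊢
  rw [mem_lang_rev, ← testLang_reverse (w := w)]
  simpa using h1

/-- A complete form has an interpretation generating the test language. -/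
lemma Complete.genTest {F : Grammar} (h : Complete F) : ∃ G', Interprets G' F ∧ GenTest G' := by
  obtain ⟨L', ⟨G', hG', rfl⟩, h2⟩ := h.2 testLang ⟨testGrammar, lang_testGrammar.symm⟩
  refine ⟨G', hG', ?_⟩
  exact h2.symm

/-- Grammars with one-sided productions do not generate the test language. -/
lemma oneSided {G : Grammar} (hL : GenTest G)
    (h1 : ∀ X ∈ G.T, ∀ α, (X, α) ∈ G.P → ∃ y β, y ∈ G.T ∧ α = y :: β)
    (h2 : ∀ X, X ∉ G.T → ∀ α, (X, α) ∈ G.P → (∃ Y, Y ∉ G.T ∧ α = [Y]) ∨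
      (∃ y β, y ∈ G.T ∧ α = y :: β) ∨ ∃ Y y β, Y ∉ G.T ∧ y ∈ G.T ∧ α = Y :: y :: β) : False := by
  have hp : Propagating G := by
    rintro ⟨X, α⟩ hX hα
    simp only at hα
    subst hα
    by_cases hT : X ∈ G.T
    · obtain ⟨y, β, _, h⟩ := h1 X hT _ hX
      simp at h
    · rcases h2 X hT _ hX with ⟨Y, _, h⟩ | ⟨y, β, _, h⟩ | ⟨Y, y, β, _, _, h⟩ <;> simp at h
  obtain ⟨K, hK, hgrow⟩ := growth hp hL (fun y => y ∈ G.T)
    (fun X hX α hα => by
      obtain ⟨y, β, hy, e⟩ := h1 X hX α hα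
      exact ⟨y, β, hy, e⟩)
    (fun X hX k z h => by
      have key : ∀ k X, X ∈ G.T → ∀ z, Der G k [X] [z] → z ∈ G.T := by
        intro k
        induction k with
        | zero =>
          intro X hX z h
          rw [der_zero] at h
          simp only [cons.injEq, and_true] at h
          rw [← h]; exact hX
        | succ k ih =>
          intro X hX z h
          obtain ⟨α, hα1, hα2⟩ := der_single_succ.1 h
          obtain ⟨y, β, hy, rfl⟩ := h1 X hX α hα1
          have hlen := der_length hp hα2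
          have hβ : β = [] := by
            simp only [length_cons, length_nil] at hlen
            exact length_eq_zero_iff.1 (by omega)
          subst hβ
          exact ih y hy z hα2
      exact key (k + 1) X hX z h)
  refine core hL (fun y => y ∈ G.T) K hgrow ?_
  intro t β hβ
  -- the shape of reachable words
  have shape : ∀ t u β, Der G t u β → ((∃ X, u = [X]) ∨ (∃ y γ, y ∈ G.T ∧ u = [y] ++ γ) ∨
      ∃ X y γ, y ∈ G.T ∧ u = [X] ++ ([y] ++ γ)) → ((∃ X, β = [X]) ∨
      (∃ y γ, y ∈ G.T ∧ β = [y] ++ γ) ∨ ∃ X y γ, y ∈ G.T ∧ β = [X] ++ ([y] ++ γ)) := by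
    intro t
    induction t with
    | zero =>
      intro u β h hu
      rw [der_zero] at h
      rw [← h]; exact hu
    | succ t ih =>
      intro u β h hu
      obtain ⟨w, hw1, hw2⟩ := h
      refine ih w β hw2 ?_
      rcases hu with ⟨X, rfl⟩ | ⟨y, γ, hy, rfl⟩ | ⟨X, y, γ, hy, rfl⟩
      · have hX := step_single.1 hw1
        by_cases hT : X ∈ G.T
        · obtain ⟨y, β, hy, e⟩ := h1 X hT _ hX
          exact Or.inr (Or.inl ⟨y, β, hy, by rw [e]; rfl⟩)
        · rcases h2 X hT _ hX with ⟨Y, _, e⟩ | ⟨y, β, hy, e⟩ | ⟨Y, y, β, _, hy, e⟩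
          · exact Or.inl ⟨Y, e⟩
          · exact Or.inr (Or.inl ⟨y, β, hy, by rw [e]; rfl⟩)
          · exact Or.inr (Or.inr ⟨Y, y, β, hy, by rw [e]; rfl⟩)
      · obtain ⟨v₁, v₂, rfl, hs1, hs2⟩ := step_append.1 hw1
        obtain ⟨y', β, hy', rfl⟩ := h1 y hy _ (step_single.1 hs1)
        exact Or.inr (Or.inl ⟨y', β ++ v₂, hy', rfl⟩)
      · obtain ⟨v₁, v₂, rfl, hs1, hs2⟩ := step_append.1 hw1
        obtain ⟨v₃, v₄, rfl, hs3, hs4⟩ := step_append.1 hs2
        obtain ⟨y', β, hy', rfl⟩ := h1 y hy _ (step_single.1 hs3)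
        have hX := step_single.1 hs1
        by_cases hT : X ∈ G.T
        · obtain ⟨z, δ, hz, rfl⟩ := h1 X hT _ hX
          exact Or.inr (Or.inl ⟨z, δ ++ (y' :: β ++ v₄), hz, rfl⟩)
        · rcases h2 X hT _ hX with ⟨Y, _, rfl⟩ | ⟨z, δ, hz, rfl⟩ | ⟨Y, z, δ, _, hz, rfl⟩
          · exact Or.inr (Or.inr ⟨Y, y', β ++ v₄, hy', rfl⟩)
          · exact Or.inr (Or.inl ⟨z, δ ++ (y' :: β ++ v₄), hz, rfl⟩)
          · exact Or.inr (Or.inr ⟨Y, z, δ ++ (y' :: β ++ v₄), hz, rfl⟩)
  rcases shape t _ β hβ (Or.inl ⟨G.S, rfl⟩) with ⟨X, rfl⟩ | h | h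
  · left; simp
  · right; left; exact h
  · right; right; exact h

end Pool.Agent.Helper76.EOL
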