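import Pool.Agent.Helper76.EOLBasic

/-!
# The test language `{b^m a^n b^m : m, n ≥ 1} ∪ {b^(2^N) : N ≥ 0}` (with `a = 0`, `b = 1`)
-/

namespace Pool.Agent.Helper76.EOL

open List

/-- The test language. -/
def testLang : Set (List ℕ) :=
  {w | (∃ m n : ℕ, 1 ≤ m ∧ 1 ≤ n ∧ w = replicate m 1 ++ (replicate n 0 ++ replicate m 1)) ∨
    ∃ N : ℕ, w = replicate (2 ^ N) 1}

lemma wd_succ (m k : ℕ) : [1] ++ ((replicate m 1 ++ (replicate k 0 ++ replicate m 1)) ++ [1]) =
    replicate (m + 1) 1 ++ (replicate k 0 ++ replicate (m + 1) 1) := by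
  have e1 : replicate (m + 1) 1 = [1] ++ replicate m 1 := by
    rw [replicate_succ]; rfl
  have e2 : replicate (m + 1) 1 = replicate m 1 ++ [1] := by
    rw [replicate_succ']
  calc [1] ++ ((replicate m 1 ++ (replicate k 0 ++ replicate m 1)) ++ [1])
      = ([1] ++ replicate m 1) ++ (replicate k 0 ++ (replicate m 1 ++ [1])) := by
        simp only [append_assoc]
    _ = _ := by rw [← e1, ← e2]

/-- Productions of an EOL grammar for the test language. -/
def testP : Finset (ℕ × List ℕ) :=
  {(0, [8]), (1, [8]), (8, [8]), (2, [4, 3, 4]), (2, [7]), (3, [4, 3, 4]), (3, [5]),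
    (5, [6, 5]), (5, [6]), (4, [4]), (4, [1]), (6, [6]), (6, [0]), (7, [7, 7]), (7, [1])}

/-- An EOL grammar for the test language. -/
def testGrammar : Grammar where
  V := {0, 1, 2, 3, 4, 5, 6, 7, 8}
  T := {0, 1}
  P := testP
  S := 2
  T_sub := by decide
  S_mem := by decide
  S_notMem := by decide
  prod_wf := by decide
  total := by
    intro X hX
    simp only [Finset.mem_insert, Finset.mem_singleton] at hX
    rcases hX with rfl | rfl | rfl | rfl | rfl | rfl | rfl | rfl | rfl
    · exact ⟨[8], by decide⟩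
    · exact ⟨[8], by decide⟩
    · exact ⟨[7], by decide⟩
    · exact ⟨[5], by decide⟩
    · exact ⟨[4], by decide⟩
    · exact ⟨[6], by decide⟩
    · exact ⟨[6], by decide⟩
    · exact ⟨[1], by decide⟩
    · exact ⟨[8], by decide⟩

/-- A word all of whose letters are terminal. -/
def IsTerm (w : List ℕ) : Prop := ∀ x ∈ w, x = 0 ∨ x = 1

lemma isTerm_append {u v : List ℕ} : IsTerm (u ++ v) ↔ IsTerm u ∧ IsTerm v := by
  unfold IsTerm
  constructor
  · intro h
    exact ⟨fun x hx => h x (by simp [hx]), fun x hx => h x (by simp [hx])⟩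
  · rintro ⟨h1, h2⟩ x hx
    rw [mem_append] at hx
    rcases hx with hx | hx
    · exact h1 x hx
    · exact h2 x hx

lemma test8 {n : ℕ} {w : List ℕ} (h : Der testGrammar n [8] w) : w = [8] := by
  induction n with
  | zero => exact (der_zero.1 h).symm
  | succ n ih =>
    obtain ⟨α, h1, h2⟩ := der_single_succ.1 h
    have : α = [8] := by
      change (8, α) ∈ testP at h1
      simpa [testP] using h1
    subst this
    exact ih h2

lemma test8' {n : ℕ} {w : List ℕ} (h : Der testGrammar n [8] w) (hw : IsTerm w) : False := by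
  have := test8 h
  subst this
  have := hw 8 (by simp)
  omega

lemma test0 {n : ℕ} {w : List ℕ} (h : Der testGrammar n [0] w) (hw : IsTerm w) :
    n = 0 ∧ w = [0] := by
  cases n with
  | zero => exact ⟨rfl, (der_zero.1 h).symm⟩
  | succ n =>
    obtain ⟨α, h1, h2⟩ := der_single_succ.1 h
    have : α = [8] := by
      change (0, α) ∈ testP at h1
      simpa [testP] using h1
    subst this
    exact (test8' h2 hw).elim

lemma test1 {n : ℕ} {w : List ℕ} (h : Der testGrammar n [1] w) (hw : IsTerm w) :
    n = 0 ∧ w = [1] := by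
  cases n with
  | zero => exact ⟨rfl, (der_zero.1 h).symm⟩
  | succ n =>
    obtain ⟨α, h1, h2⟩ := der_single_succ.1 h
    have : α = [8] := by
      change (1, α) ∈ testP at h1
      simpa [testP] using h1
    subst this
    exact (test8' h2 hw).elim

lemma test4 {n : ℕ} {w : List ℕ} (h : Der testGrammar n [4] w) (hw : IsTerm w) :
    w = [1] := by
  induction n with
  | zero =>
    rw [der_zero] at h
    subst h
    have := hw 4 (by simp)
    omega
  | succ n ih =>
    obtain ⟨α, h1, h2⟩ := der_single_succ.1 h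
    have : α = [4] ∨ α = [1] := by
      change (4, α) ∈ testP at h1
      simpa [testP] using h1
    rcases this with rfl | rfl
    · exact ih h2
    · exact (test1 h2 hw).2

lemma test6 {n : ℕ} {w : List ℕ} (h : Der testGrammar n [6] w) (hw : IsTerm w) :
    w = [0] := by
  induction n with
  | zero =>
    rw [der_zero] at h
    subst h
    have := hw 6 (by simp)
    omega
  | succ n ih =>
    obtain ⟨α, h1, h2⟩ := der_single_succ.1 h
    have : α = [6] ∨ α = [0] := by
      change (6, α) ∈ testP at h1
      simpa [testP] using h1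
    rcases this with rfl | rfl
    · exact ih h2
    · exact (test0 h2 hw).2

lemma test7 {n : ℕ} {w : List ℕ} (h : Der testGrammar n [7] w) (hw : IsTerm w) :
    w = replicate (2 ^ (n - 1)) 1 := by
  induction n generalizing w with
  | zero =>
    rw [der_zero] at h
    subst h
    have := hw 7 (by simp)
    omega
  | succ n ih =>
    obtain ⟨α, h1, h2⟩ := der_single_succ.1 h
    have : α = [7, 7] ∨ α = [1] := by
      change (7, α) ∈ testP at h1
      simpa [testP] using h1
    rcases this with rfl | rfl
    · obtain ⟨v₁, v₂, rfl, h3, h4⟩ := der_cons.1 h2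
      rw [isTerm_append] at hw
      rw [ih h3 hw.1, ih h4 hw.2, ← replicate_add, ← two_mul, ← pow_succ']
      have hn : n ≠ 0 := by
        rintro rfl
        rw [der_zero] at h3
        subst h3
        have := hw.1 7 (by simp)
        omega
      congr 2
      omega
    · obtain ⟨rfl, rfl⟩ := test1 h2 hw
      rfl

lemma test5 {n : ℕ} {w : List ℕ} (h : Der testGrammar n [5] w) (hw : IsTerm w) :
    ∃ k, 1 ≤ k ∧ w = replicate k 0 := by
  induction n generalizing w with
  | zero =>
    rw [der_zero] at h
    subst h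
    have := hw 5 (by simp)
    omega
  | succ n ih =>
    obtain ⟨α, h1, h2⟩ := der_single_succ.1 h
    have : α = [6, 5] ∨ α = [6] := by
      change (5, α) ∈ testP at h1
      simpa [testP] using h1
    rcases this with rfl | rfl
    · obtain ⟨v₁, v₂, rfl, h3, h4⟩ := der_cons.1 h2
      rw [isTerm_append] at hw
      obtain ⟨k, _, rfl⟩ := ih h4 hw.2
      rw [test6 h3 hw.1]
      exact ⟨k + 1, by omega, by rw [replicate_succ]; rfl⟩
    · rw [test6 h2 hw]
      exact ⟨1, le_rfl, rfl⟩

lemma test3 {n : ℕ} {w : List ℕ} (h : Der testGrammar n [3] w) (hw : IsTerm w) :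
    ∃ m k, 1 ≤ k ∧ w = replicate m 1 ++ (replicate k 0 ++ replicate m 1) := by
  induction n generalizing w with
  | zero =>
    rw [der_zero] at h
    subst h
    have := hw 3 (by simp)
    omega
  | succ n ih =>
    obtain ⟨α, h1, h2⟩ := der_single_succ.1 h
    have : α = [4, 3, 4] ∨ α = [5] := by
      change (3, α) ∈ testP at h1
      simpa [testP] using h1
    rcases this with rfl | rfl
    · obtain ⟨v₁, v₂, rfl, h3, h4⟩ := der_cons.1 h2
      obtain ⟨v₃, v₄, rfl, h5, h6⟩ := der_cons.1 h4
      rw [isTerm_append, isTerm_append] at hw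
      obtain ⟨m, k, hk, rfl⟩ := ih h5 hw.2.1
      rw [test4 h3 hw.1, test4 h6 hw.2.2]
      exact ⟨m + 1, k, hk, wd_succ m k⟩
    · obtain ⟨k, hk, rfl⟩ := test5 h2 hw
      exact ⟨0, k, hk, by simp⟩

lemma test2 {n : ℕ} {w : List ℕ} (h : Der testGrammar n [2] w) (hw : IsTerm w) :
    w ∈ testLang := by
  cases n with
  | zero =>
    rw [der_zero] at h
    subst h
    have := hw 2 (by simp)
    omega
  | succ n =>
    obtain ⟨α, h1, h2⟩ := der_single_succ.1 h
    have : α = [4, 3, 4] ∨ α = [7] := by
      change (2, α) ∈ testP at h1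
      simpa [testP] using h1
    rcases this with rfl | rfl
    · obtain ⟨v₁, v₂, rfl, h3, h4⟩ := der_cons.1 h2
      obtain ⟨v₃, v₄, rfl, h5, h6⟩ := der_cons.1 h4
      rw [isTerm_append, isTerm_append] at hw
      obtain ⟨m, k, hk, rfl⟩ := test3 h5 hw.2.1
      rw [test4 h3 hw.1, test4 h6 hw.2.2]
      left
      exact ⟨m + 1, k, by omega, hk, wd_succ m k⟩
    · right
      exact ⟨n - 1, test7 h2 hw⟩

lemma tder4 (n : ℕ) : Der testGrammar (n + 1) [4] [1] := by
  induction n with
  | zero => exact der_of_prod (by decide)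
  | succ n ih =>
    rw [der_single_succ]
    exact ⟨[4], by decide, ih⟩

lemma tder6 (n : ℕ) : Der testGrammar (n + 1) [6] [0] := by
  induction n with
  | zero => exact der_of_prod (by decide)
  | succ n ih =>
    rw [der_single_succ]
    exact ⟨[6], by decide, ih⟩

lemma tder7 (n : ℕ) : Der testGrammar (n + 1) [7] (replicate (2 ^ n) 1) := by
  induction n with
  | zero => exact der_of_prod (by decide)
  | succ n ih =>
    rw [der_single_succ]
    refine ⟨[7, 7], by decide, ?_⟩
    rw [pow_succ, mul_two, replicate_add]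
    exact Der.append (u₁ := [7]) (u₂ := [7]) ih ih

lemma tder5 (k : ℕ) : Der testGrammar (k + 2) [5] (replicate (k + 1) 0) := by
  induction k with
  | zero =>
    rw [der_single_succ]
    exact ⟨[6], by decide, tder6 0⟩
  | succ k ih =>
    rw [der_single_succ]
    refine ⟨[6, 5], by decide, ?_⟩
    rw [replicate_succ]
    exact Der.append (u₁ := [6]) (u₂ := [5]) (v₁ := [0]) (tder6 (k + 1)) ih

lemma tder3 (m k : ℕ) : Der testGrammar (m + k + 3) [3]
    (replicate m 1 ++ (replicate (k + 1) 0 ++ replicate m 1)) := by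
  induction m with
  | zero =>
    rw [der_single_succ]
    refine ⟨[5], by decide, ?_⟩
    have := tder5 k
    simpa using this
  | succ m ih =>
    rw [show m + 1 + k + 3 = (m + k + 3) + 1 by omega, der_single_succ]
    refine ⟨[4, 3, 4], by decide, ?_⟩
    have h1 := Der.append (u₁ := [3]) (u₂ := [4]) ih (tder4 (m + k + 2))
    have h2 := Der.append (u₁ := [4]) (tder4 (m + k + 2)) h1
    rw [← wd_succ]
    exact h2

lemma lang_testGrammar : lang testGrammar = testLang := by
  ext w
  rw [mem_lang]
  constructor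
  · rintro ⟨h1, n, h2⟩
    apply test2 h2
    intro x hx
    have := h1 x hx
    change x ∈ ({0, 1} : Finset ℕ) at this
    simpa using this
  · rintro (⟨m, n, hm, hn, rfl⟩ | ⟨N, rfl⟩)
    · obtain ⟨m, rfl⟩ : ∃ m', m = m' + 1 := ⟨m - 1, by omega⟩
      obtain ⟨n, rfl⟩ : ∃ n', n = n' + 1 := ⟨n - 1, by omega⟩
      refine ⟨?_, m + n + 4, ?_⟩
      · intro x hx
        change x ∈ ({0, 1} : Finset ℕ)
        simp only [mem_append, mem_replicate] at hx
        rcases hx with hx | hx | hx
        · simp [hx.2]
        · simp [hx.2]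
        · simp [hx.2]
      · change Der testGrammar (m + n + 3 + 1) [2] _
        rw [der_single_succ]
        refine ⟨[4, 3, 4], by decide, ?_⟩
        have h1 := Der.append (u₁ := [3]) (u₂ := [4]) (tder3 m n) (tder4 (m + n + 2))
        have h2 := Der.append (u₁ := [4]) (tder4 (m + n + 2)) h1
        rw [← wd_succ]
        exact h2
    · refine ⟨?_, N + 2, ?_⟩
      · intro x hx
        rw [eq_of_mem_replicate hx]
        decide
      · change Der testGrammar (N + 2) [2] _
        rw [der_single_succ]
        exact ⟨[7], by decide, tder7 N⟩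

end Pool.Agent.Helper76.EOL
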