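import Pool.Agent.Helper76.SlipPattern

/-!
# Cycles in the pattern
-/

namespace Pool.Agent.Helper76.Slip

open Filter CircleDeg1Lift

namespace Data

variable {D : Data}

lemma g_add_int (g : CircleDeg1Lift) (x : ℝ) (m : ℤ) : g (x + m) = g x + m := g.map_add_int x m

lemma chain (c : Bool) (j : ℕ → ℕ) (m : ℕ → ℤ) (L : ℕ)
    (h : ∀ i < L, D.Le (j (i + 1), m (i + 1)) (j i + 1, m i)) (hl : ∀ i < L, D.ltr (j i) = c) :
    ∀ k', ∃ k, ∀ᶠ n in (hyperfilter ℕ : Filter ℕ),
      D.P n (j L) k + m L ≤ ((D.f n c : CircleDeg1Lift) ^ L) (D.P n (j 0) k' + m 0) := by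
  induction L with
  | zero => exact fun k' => ⟨k', Eventually.of_forall fun n => by simp⟩
  | succ L ih =>
    intro k'
    obtain ⟨k, hk⟩ := ih (fun i hi => h i (by omega)) (fun i hi => hl i (by omega)) k'
    obtain ⟨k2, hk2⟩ := h L (by omega) k
    refine ⟨k2, ?_⟩
    filter_upwards [hk, hk2] with n h1 h2
    have h3 : D.P n (j (L + 1)) k2 + m (L + 1) ≤ D.P n (j L + 1) k + m L := h2
    have h4 : D.P n (j L + 1) k = D.f n c (D.P n (j L) k) := by rw [P_succ, hl L (by omega)]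
    rw [h4, ← g_add_int] at h3
    refine h3.trans ?_
    rw [pow_succ', mul_apply]
    exact (D.f n c : CircleDeg1Lift).monotone h1

lemma rep (c : Bool) (j : ℕ → ℕ) (m : ℕ → ℤ) (L : ℕ) (M : ℤ)
    (h : ∀ i < L, D.Le (j (i + 1), m (i + 1)) (j i + 1, m i)) (hl : ∀ i < L, D.ltr (j i) = c)
    (hj : j L = j 0) (hm : m L = m 0 + M) (t : ℕ) :
    ∀ k', ∃ k, ∀ᶠ n in (hyperfilter ℕ : Filter ℕ),
      D.P n (j 0) k + m 0 + ((t * M : ℤ) : ℝ) ≤
        ((D.f n c : CircleDeg1Lift) ^ (L * t)) (D.P n (j 0) k' + m 0) := by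
  induction t with
  | zero => exact fun k' => ⟨k', Eventually.of_forall fun n => by simp⟩
  | succ t ih =>
    intro k'
    obtain ⟨k, hk⟩ := ih k'
    obtain ⟨k2, hk2⟩ := chain c j m L h hl k
    refine ⟨k2, ?_⟩
    filter_upwards [hk, hk2] with n h1 h2
    rw [hj, hm] at h2
    have h3 : L * (t + 1) = L + L * t := by ring
    rw [h3, pow_add, mul_apply]
    refine le_trans ?_ (((D.f n c : CircleDeg1Lift) ^ L).monotone h1)
    rw [g_add_int]
    push_cast at h2 ⊢
    linarith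

lemma cycle_le (c : Bool) (j : ℕ → ℕ) (m : ℕ → ℤ) (L : ℕ) (M : ℤ)
    (h : ∀ i < L, D.Le (j (i + 1), m (i + 1)) (j i + 1, m i)) (hl : ∀ i < L, D.ltr (j i) = c)
    (hj : j L = j 0) (hm : m L = m 0 + M) : (M : ℝ) ≤ L * D.rr c := by
  by_contra hcon
  push Not at hcon
  obtain ⟨t, ht⟩ := exists_nat_gt ((2 * D.C (j 0) + 3) / ((M : ℝ) - L * D.rr c))
  rw [div_lt_iff₀ (by linarith)] at ht
  obtain ⟨k, hk⟩ := rep c j m L M h hl hj hm t 0
  obtain ⟨n, h1, h2⟩ := (hk.and (le_P (D := D) (j 0) k)).exists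
  have h3 := P_le (D := D) n (j 0) 0
  have h4 := ((D.f n c : CircleDeg1Lift) ^ (L * t)).map_lt_add_translationNumber_add_one
    (D.P n (j 0) 0 + m 0)
  have h5 : translationNumber (D.f n c : CircleDeg1Lift) = D.rr c := rot_of_isConj (D.conj n c)
  rw [translationNumber_pow, h5] at h4
  push_cast at h1 h4
  nlinarith

lemma pow_of_isConj {f : G} {r : ℝ} (h : IsConj f (T r)) {L : ℕ} {M : ℤ} (hM : (M : ℝ) = L * r)
    (t : ℝ) : ((f : CircleDeg1Lift) ^ L) t = t + M := by
  obtain ⟨c, hc⟩ := h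
  have h3 : f = (c : G)⁻¹ * T r * c := by
    rw [mul_assoc, ← hc.eq]; simp
  have h4 : f ^ L = (c : G)⁻¹ * T (L * r) * c := by
    rw [h3]
    have : ∀ L : ℕ, ((c : G)⁻¹ * T r * c) ^ L = (c : G)⁻¹ * T (L * r) * c := by
      intro L
      have h5 := conj_pow (i := L) (a := (c : G)⁻¹) (b := T r)
      rw [inv_inv] at h5
      rw [h5, T, T]
      congr 2
      exact translate_pow r L
    exact this L
  have h5 : ((f : CircleDeg1Lift) ^ L) t = (f ^ L : G) t := by simp
  rw [h5, h4, ← hM]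
  show ((c : G)⁻¹ : G) (T M ((c : G) t)) = t + M
  have h6 : T M ((c : G) t) = (c : G) t + M := by
    show (M : ℝ) + (c : G) t = _
    ring
  rw [h6, g_add_int]
  simp

theorem cycle_lt (c : Bool) (j : ℕ → ℕ) (m : ℕ → ℤ) (L : ℕ) (hL : 0 < L) (M : ℤ)
    (h : ∀ i < L, D.Lx (j (i + 1), m (i + 1)) (j i + 1, m i)) (hl : ∀ i < L, D.ltr (j i) = c)
    (hj : j L = j 0) (hm : m L = m 0 + M) : (M : ℝ) < L * D.rr c := by
  refine lt_of_le_of_ne (cycle_le c j m L M (fun i hi => (h i hi).1) hl hj hm) fun hM => ?_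
  -- all the inequalities between cuts are equalities
  have heq : ∀ i < L, D.Le (j i + 1, m i) (j (i + 1), m (i + 1)) := by
    intro i hi
    by_contra hcon
    obtain ⟨ks, hks⟩ := not_le hcon
    obtain ⟨k2, hk2⟩ := chain (D := D) c (fun t => j (i + 1 + t)) (fun t => m (i + 1 + t))
      (L - (i + 1)) (fun t ht => (h (i + 1 + t) (by omega)).1) (fun t ht => hl (i + 1 + t) (by omega)) ks
    obtain ⟨k1, hk1⟩ := chain (D := D) c j m i (fun t ht => (h t (by omega)).1)
      (fun t ht => hl t (by omega)) k2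
    obtain ⟨n, ⟨h1, h2⟩, h3⟩ := ((hk2.and hk1).and (hks k1)).exists
    have e1 : i + 1 + (L - (i + 1)) = L := by omega
    simp only [e1, add_zero] at h1
    have h4 : D.P n (j i + 1) k1 = D.f n c (D.P n (j i) k1) := by rw [P_succ, hl i hi]
    have h3' : D.P n (j (i + 1)) ks + m (i + 1) < D.P n (j i + 1) k1 + m i := h3
    rw [h4, ← g_add_int] at h3'
    have h5 : D.P n (j (i + 1)) ks + m (i + 1) <
        ((D.f n c : CircleDeg1Lift) ^ (i + 1)) (D.P n (j 0) k2 + m 0) := by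
      refine h3'.trans_le ?_
      rw [pow_succ', mul_apply]
      exact (D.f n c : CircleDeg1Lift).monotone h2
    have h6 : StrictMono ((D.f n c : CircleDeg1Lift) ^ (L - (i + 1))) := by
      have : ((D.f n c : CircleDeg1Lift) ^ (L - (i + 1))) = ((D.f n c ^ (L - (i + 1)) : G) :
        CircleDeg1Lift) := by simp
      rw [this]
      exact (toOrderIso (D.f n c ^ (L - (i + 1)))).strictMono
    have h7 := h6 h5
    rw [← mul_apply, ← pow_add] at h7
    have e2 : L - (i + 1) + (i + 1) = L := by omega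
    rw [e2, pow_of_isConj (D.conj n c) hM] at h7
    have h8 := h1.trans_lt h7
    rw [hj, hm] at h8
    push_cast at h8
    linarith
  have hsum : ∀ i ≤ L, D.eta (j i) - m i ≤ D.eta (j 0) - m 0 - i * D.rr1 c := by
    intro i
    induction i with
    | zero => intro _; simp
    | succ i ih =>
      intro hi
      have h1 := ih (by omega)
      have h2 : D.eta (j (i + 1)) - m (i + 1) ≤ D.eta (j i + 1) - m i :=
        (h i (by omega)).2 (heq i (by omega))
      rw [eta_succ, hl i (by omega)] at h2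
      push_cast
      linarith
  have h1 := hsum L le_rfl
  rw [hj, hm] at h1
  have h2 := D.rr_lt c
  have h3 : (0 : ℝ) < L := by exact_mod_cast hL
  push_cast at h1
  nlinarith

end Data

end Pool.Agent.Helper76.Slip
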