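import Mathlib

/-!
# Rotation numbers of positive words: definitions

`G` is the group of homeomorphisms of the line commuting with the translation by one: the units
of Mathlib's monoid `CircleDeg1Lift` of monotone maps `f` with `f (x + 1) = f x + 1`.
-/

namespace Pool.Agent.Helper76.Slip

/-- The group of increasing homeomorphisms of `ℝ` commuting with `x ↦ x + 1`, as the invertible
elements of the monoid of monotone maps commuting with `x ↦ x + 1`. -/
abbrev G : Type := CircleDeg1Liftˣ

/-- The real-valued rotation number. -/
noncomputable def rot (f : G) : ℝ := CircleDeg1Lift.translationNumber (f : CircleDeg1Lift)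

/-- The translation `x ↦ x + t` (written `t + x` in Mathlib). -/
noncomputable def T (t : ℝ) : G := CircleDeg1Lift.translate (Multiplicative.ofAdd t)

/-- The free group on the two letters `a = true` and `b = false`. -/
abbrev F : Type := FreeGroup Bool

/-- The letter `a`. -/
abbrev a : F := FreeGroup.of true

/-- The letter `b`. -/
abbrev b : F := FreeGroup.of false

/-- `R(w, r, s)`: the supremum of the rotation number of `ρ(w)` over all `ρ : F → G` with
`rot ρ(a) = r` and `rot ρ(b) = s`. -/
noncomputable def R (w : F) (r s : ℝ) : ℝ :=
  sSup {x | ∃ ρ : F →* G, rot (ρ a) = r ∧ rot (ρ b) = s ∧ x = rot (ρ w)}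

/-- `R(w, r-, s-)`: the supremum over all `ρ` with `ρ(a)` conjugate to `T r` and `ρ(b)` conjugate
to `T s`. -/
noncomputable def Rminus (w : F) (r s : ℝ) : ℝ :=
  sSup {x | ∃ ρ : F →* G, IsConj (ρ a) (T r) ∧ IsConj (ρ b) (T s) ∧ x = rot (ρ w)}

/-- The positive word with the given list of letters (`true` for `a`, `false` for `b`). -/
def word (l : List Bool) : F := (l.map FreeGroup.of).prod

/-- `(r, s)` is slippery for `w`. -/
def Slippery (w : F) (r s : ℝ) : Prop :=
  ∀ r' s' : ℝ, r' < r → s' < s → R w r' s' < Rminus w r s

end Pool.Agent.Helper76.Slip
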