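import Pool.Agent.Helper76.SlipMain

/-!
# Slippery points with a rational value
-/

namespace Pool.Agent.Helper76.Slip

open Filter CircleDeg1Lift

/-! ### Words -/

/-- The product over a list of letters. -/
noncomputable def pr (f : Bool → G) (L : List Bool) : G := (L.map f).prod

lemma pr_cons (f : Bool → G) (c : Bool) (L : List Bool) : pr f (c :: L) = f c * pr f L := by
  simp [pr]

lemma map_word (ρ : F →* G) (l : List Bool) : ρ (word l) = pr (fun c => ρ (FreeGroup.of c)) l := by
  simp [word, pr, map_list_prod, Function.comp_def]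

lemma pr_flatten (f : Bool → G) (l : List Bool) (q : ℕ) :
    pr f (List.replicate q l).flatten = pr f l ^ q := by
  induction q with
  | zero => simp [pr]
  | succ q ih =>
    rw [List.replicate_succ, List.flatten_cons, pow_succ', ← ih]
    simp [pr]

/-- The letters of `L` in the order in which they are applied. -/
def ltrOf (L : List Bool) (j : ℕ) : Bool := L.reverse.getD j true

lemma Yu_ltrOf (f : Bool → G) (L : List Bool) :
    ∀ j ≤ L.length, Yu (ltrOf L) f j = pr f (L.reverse.take j).reverse := by
  intro j
  induction j with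
  | zero => intro _; simp [Yu, pr]
  | succ j ih =>
    intro hj
    have h1 := ih (by omega)
    have h2 : j < L.reverse.length := by simpa using hj
    have h3 : ltrOf L j = L.reverse[j] := by
      unfold ltrOf
      rw [List.getD_eq_getElem?_getD, List.getElem?_eq_getElem h2, Option.getD_some]
    rw [Yu, h1, List.take_succ_eq_append_getElem h2, List.reverse_append, List.reverse_singleton,
      List.singleton_append, pr_cons, h3]

lemma Yu_length (f : Bool → G) (L : List Bool) : Yu (ltrOf L) f L.length = pr f L := by
  rw [Yu_ltrOf f L _ le_rfl]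
  rw [← List.length_reverse (as := L), List.take_length, List.reverse_reverse]

lemma sum_ltrOf (r : Bool → ℝ) (L : List Bool) :
    ∑ j ∈ Finset.range L.length, r (ltrOf L j) = (L.map r).sum := by
  have h1 : ∀ n ≤ L.length, ∑ j ∈ Finset.range n, r (ltrOf L j) = ((L.reverse.take n).map r).sum := by
    intro n
    induction n with
    | zero => intro _; simp
    | succ n ih =>
      intro hn
      have h2 : n < L.reverse.length := by simpa using hn
      have h3 : ltrOf L n = L.reverse[n] := by
        unfold ltrOf
        rw [List.getD_eq_getElem?_getD, List.getElem?_eq_getElem h2, Option.getD_some]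
      rw [Finset.sum_range_succ, ih (by omega), List.take_succ_eq_append_getElem h2,
        List.map_append, List.sum_append, h3]
      simp
  rw [h1 _ le_rfl, ← List.length_reverse (as := L), List.take_length, List.map_reverse,
    List.sum_reverse]

lemma sum_map (r : Bool → ℝ) (l : List Bool) :
    (l.map r).sum = l.count true * r true + l.count false * r false := by
  induction l with
  | nil => simp
  | cons c l ih =>
    rw [List.map_cons, List.sum_cons, ih]
    cases c
    · simp
      ring
    · simp
      ring

lemma sum_map_flatten (r : Bool → ℝ) (l : List Bool) (q : ℕ) :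
    ((List.replicate q l).flatten.map r).sum = q * (l.map r).sum := by
  induction q with
  | zero => simp
  | succ q ih =>
    rw [List.replicate_succ, List.flatten_cons, List.map_append, List.sum_append, ih]
    push_cast
    ring

/-! ### Bounds -/

lemma pr_le (f : Bool → G) (L : List Bool) (x : ℝ) :
    pr f L x ≤ x + (L.map fun c => |rot (f c)| + 1).sum := by
  induction L with
  | nil => simp [pr]
  | cons c L ih =>
    rw [pr_cons, List.map_cons, List.sum_cons]
    have h1 := (abs_le.1 (abs_sub_le (f c) (pr f L x))).2
    show f c (pr f L x) ≤ _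
    linarith

lemma rot_pr_le (f : Bool → G) (L : List Bool) :
    rot (pr f L) ≤ (L.map fun c => |rot (f c)| + 1).sum :=
  translationNumber_le_of_le_add _ (pr_le f L)

lemma bdd_aux (l : List Bool) (r s : ℝ) (ρ : F →* G) (h1 : rot (ρ a) = r) (h2 : rot (ρ b) = s) :
    rot (ρ (word l)) ≤ l.count true * (|r| + 1) + l.count false * (|s| + 1) := by
  rw [map_word]
  refine (rot_pr_le _ _).trans ?_
  rw [sum_map]
  have e1 : rot (ρ (FreeGroup.of true)) = r := h1
  have e2 : rot (ρ (FreeGroup.of false)) = s := h2
  rw [e1, e2]

lemma bdd_R (l : List Bool) (r s : ℝ) :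
    BddAbove {x | ∃ ρ : F →* G, rot (ρ a) = r ∧ rot (ρ b) = s ∧ x = rot (ρ (word l))} :=
  ⟨_, fun _ ⟨ρ, h1, h2, h3⟩ => h3 ▸ bdd_aux l r s ρ h1 h2⟩

lemma bdd_Rminus (l : List Bool) (r s : ℝ) :
    BddAbove {x | ∃ ρ : F →* G, IsConj (ρ a) (T r) ∧ IsConj (ρ b) (T s) ∧
      x = rot (ρ (word l))} :=
  ⟨_, fun _ ⟨ρ, h1, h2, h3⟩ => h3 ▸ bdd_aux l r s ρ (rot_of_isConj h1) (rot_of_isConj h2)⟩

lemma rot_T (t : ℝ) : rot (T t) = t := translationNumber_translate t

/-- Rotation numbers below a slippery point. -/
lemma rot_lt_of_slippery {l : List Bool} {r s : ℝ} (hs : Slippery (word l) r s) (f : Bool → G)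
    (h1 : rot (f true) < r) (h2 : rot (f false) < s) : rot (pr f l) < Rminus (word l) r s := by
  refine lt_of_le_of_lt ?_ (hs _ _ h1 h2)
  apply le_csSup (bdd_R l _ _)
  refine ⟨FreeGroup.lift f, ?_, ?_, ?_⟩
  · simp [a]
  · simp [b]
  · have h : (fun c => (FreeGroup.lift f) (FreeGroup.of c)) = f := by
      funext c
      simp
    rw [map_word, h]

/-- The pair of rotation numbers as a function of the letter. -/
noncomputable def base (r s : ℝ) (c : Bool) : ℝ := if c = true then r else s

lemma base_true (r s : ℝ) : base r s true = r := rfl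

lemma base_false (r s : ℝ) : base r s false = s := rfl

/-- The action by translations. -/
noncomputable def trans (r s : ℝ) : F →* G := FreeGroup.lift fun c => T (base r s c)

lemma trans_of (r s : ℝ) (c : Bool) : trans r s (FreeGroup.of c) = T (base r s c) := by
  simp [trans]

lemma trans_a (r s : ℝ) : IsConj (trans r s a) (T r) := by
  have : trans r s a = T r := trans_of r s true
  rw [this]

lemma trans_b (r s : ℝ) : IsConj (trans r s b) (T s) := by
  have : trans r s b = T s := trans_of r s false
  rw [this]

/-- The linear value is attained. -/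
lemma lin_le (l : List Bool) (r s : ℝ) :
    l.count true * r + l.count false * s ≤ Rminus (word l) r s := by
  apply le_csSup (bdd_Rminus l _ _)
  refine ⟨trans r s, trans_a r s, trans_b r s, ?_⟩
  rw [map_word]
  have h1 : ∀ l : List Bool, pr (fun c => T (base r s c)) l = T (l.map (base r s)).sum := by
    intro l
    induction l with
    | nil => simp [pr, T]
    | cons c l ih =>
      rw [pr_cons, ih, List.map_cons, List.sum_cons, T, T, T, ← map_mul, ← ofAdd_add]
  have h2 : (fun c => trans r s (FreeGroup.of c)) = fun c => T (base r s c) := by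
    funext c
    exact trans_of r s c
  rw [h2, h1, rot_T, sum_map, base_true, base_false]

/-! ### Continuity -/

/-- Decreasing the rotation numbers continuously. -/
noncomputable def fam (h : Bool → G) (r : Bool → ℝ) (ε : ℝ) (c : Bool) : G :=
  (h c)⁻¹ * T (r c - ε) * h c

lemma G_continuous (f : G) : Continuous f :=
  (toOrderIso f).continuous

lemma fam_continuous (h : Bool → G) (r : Bool → ℝ) (c : Bool) :
    Continuous fun p : ℝ × ℝ => (fam h r p.1 c : G) p.2 := by
  have : (fun p : ℝ × ℝ => (fam h r p.1 c : G) p.2)
      = fun p : ℝ × ℝ => ((h c)⁻¹ : G) ((r c - p.1) + (h c : G) p.2) := rfl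
  rw [this]
  exact (G_continuous _).comp ((continuous_const.sub continuous_fst).add
    ((G_continuous _).comp continuous_snd))

lemma pr_fam_continuous (h : Bool → G) (r : Bool → ℝ) (L : List Bool) :
    Continuous fun p : ℝ × ℝ => (pr (fam h r p.1) L : G) p.2 := by
  induction L with
  | nil =>
    have : (fun p : ℝ × ℝ => (pr (fam h r p.1) [] : G) p.2) = fun p => p.2 := by
      funext p; simp [pr]
    rw [this]; exact continuous_snd
  | cons c L ih =>
    have : (fun p : ℝ × ℝ => (pr (fam h r p.1) (c :: L) : G) p.2)
        = fun p => (fam h r p.1 c : G) ((pr (fam h r p.1) L : G) p.2) := by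
      funext p; rw [pr_cons]; rfl
    rw [this]
    exact (fam_continuous h r c).comp (continuous_fst.prodMk ih)

lemma rot_fam (h : Bool → G) (r : Bool → ℝ) (ε : ℝ) (c : Bool) :
    rot (fam h r ε c) = r c - ε := by
  apply rot_of_isConj
  exact ⟨toUnits (h c), by
    show (h c) * ((h c)⁻¹ * T (r c - ε) * h c) = T (r c - ε) * h c
    group⟩

lemma rot_pow (f : G) (q : ℕ) : rot (f ^ q) = q * rot f := by
  unfold rot
  rw [Units.val_pow_eq_pow_val, translationNumber_pow]

lemma int_le_rot {f : G} {x : ℝ} {p : ℤ} (h : x + p ≤ f x) : (p : ℝ) ≤ rot f :=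
  le_translationNumber_of_add_int_le _ h

/-- If the displacement of `w ^ q` exceeds `p` somewhere, then this remains so after decreasing
both rotation numbers a little. -/
lemma exists_fam (h : Bool → G) (r : Bool → ℝ) (L : List Bool) (x y : ℝ)
    (hlt : y < pr (fam h r 0) L x) : ∃ ε : ℝ, 0 < ε ∧ y < pr (fam h r ε) L x := by
  have hc : Continuous fun ε : ℝ => (pr (fam h r ε) L : G) x := by
    have h1 := pr_fam_continuous h r L
    generalize hF : (fun p : ℝ × ℝ => (pr (fam h r p.1) L : G) p.2) = F at h1
    have h2 : (fun ε : ℝ => (pr (fam h r ε) L : G) x) = fun ε => F (ε, x) := by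
      rw [← hF]
    rw [h2]
    exact h1.comp (continuous_id.prodMk continuous_const)
  have h2 := (hc.tendsto 0).eventually (lt_mem_nhds hlt)
  obtain ⟨δ, hδ, h3⟩ := Metric.eventually_nhds_iff.1 h2
  refine ⟨δ / 2, by linarith, h3 ?_⟩
  rw [Real.dist_eq, sub_zero, abs_of_pos (by linarith)]; linarith

lemma exists_eq_fam (f : Bool → G) (r : Bool → ℝ) (hf : ∀ c, IsConj (f c) (T (r c))) :
    ∃ h : Bool → G, f = fam h r 0 := by
  choose h hh using hf
  refine ⟨fun c => (h c : G), ?_⟩
  funext c
  unfold fam
  rw [sub_zero, mul_assoc, ← (hh c).eq]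
  simp

/-- At a slippery point with value `p / q`, the displacement of `w ^ q` never exceeds `p`. -/
lemma le_of_slippery {l : List Bool} {r s : ℝ} (hs : Slippery (word l) r s) {p : ℤ} {q : ℕ}
    (hq : 0 < q) (hpq : Rminus (word l) r s = p / q) (f : Bool → G)
    (hf : ∀ c, IsConj (f c) (T (base r s c))) (x : ℝ) :
    pr f (List.replicate q l).flatten x ≤ x + p := by
  by_contra hcon
  push Not at hcon
  obtain ⟨h, hh⟩ := exists_eq_fam f (base r s) hf
  rw [hh] at hcon
  obtain ⟨ε, hε, h4⟩ := exists_fam h (base r s) _ x _ hcon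
  have h5 : rot (pr (fam h (base r s) ε) l) < Rminus (word l) r s := by
    apply rot_lt_of_slippery hs
    · rw [rot_fam, base_true]; linarith
    · rw [rot_fam, base_false]; linarith
  have h6 : (p : ℝ) ≤ rot (pr (fam h (base r s) ε) (List.replicate q l).flatten) :=
    int_le_rot h4.le
  rw [pr_flatten, rot_pow] at h6
  rw [hpq, lt_div_iff₀ (by exact_mod_cast hq)] at h5
  linarith

/-! ### The main theorem -/

/-- A slippery point at which `R(w, r-, s-)` is rational satisfies the linear formula. -/
theorem main (l : List Bool) (r s : ℝ) (hs : Slippery (word l) r s) (c : ℚ)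
    (hc : (c : ℝ) = Rminus (word l) r s) :
    l.count true * r + l.count false * s = Rminus (word l) r s := by
  apply le_antisymm (lin_le l r s)
  by_contra hcon
  push Not at hcon
  set p : ℤ := c.num with hp
  set q : ℕ := c.den with hq
  have hq0 : 0 < q := c.den_pos
  have hq0' : (0 : ℝ) < q := by exact_mod_cast hq0
  have hpq : Rminus (word l) r s = p / q := by
    rw [← hc, hp, hq]
    exact_mod_cast (Rat.num_div_den c).symm
  set rr : Bool → ℝ := base r s with hrr
  set L := (List.replicate q l).flatten with hL
  have hlin : (L.map rr).sum = q * (l.count true * r + l.count false * s) := by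
    rw [hL, sum_map_flatten, sum_map]; rfl
  -- the approximating actions
  have hne : {x | ∃ ρ : F →* G, IsConj (ρ a) (T r) ∧ IsConj (ρ b) (T s) ∧
      x = rot (ρ (word l))}.Nonempty := by
    exact ⟨_, trans r s, trans_a r s, trans_b r s, rfl⟩
  have happ : ∀ n : ℕ, ∃ f : Bool → G, (∀ c, IsConj (f c) (T (rr c))) ∧
      (p / q - 1 / (n + 1) : ℝ) < rot (pr f l) := by
    intro n
    have h1 : (p / q - 1 / (n + 1) : ℝ) < Rminus (word l) r s := by
      rw [hpq]
      have : (0 : ℝ) < 1 / (n + 1) := by positivity
      linarith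
    obtain ⟨y, ⟨ρ, h2, h3, rfl⟩, h4⟩ := exists_lt_of_lt_csSup hne h1
    refine ⟨fun c => ρ (FreeGroup.of c), ?_, ?_⟩
    · intro c
      cases c
      · exact h3
      · exact h2
    · rwa [map_word] at h4
  choose f hf1 hf2 using happ
  have hle : ∀ n x, pr (f n) L x ≤ x + p := fun n x =>
    le_of_slippery hs hq0 hpq (f n) (hf1 n) x
  let x : ℕ → ℕ → ℝ := fun n k => Nat.rec 0 (fun _ y => pr (f n) L y - p) k
  have hx0 : ∀ n, x n 0 = 0 := fun n => rfl
  have hx1 : ∀ n k, x n (k + 1) = pr (f n) L (x n k) - p := fun n k => rfl
  have hxk : ∀ n k, ((pr (f n) L : CircleDeg1Lift) ^ k) 0 = x n k + ((k * p : ℤ) : ℝ) := by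
    intro n k
    induction k with
    | zero => simp [hx0]
    | succ k ih =>
      rw [pow_succ', mul_apply, ih, Data.g_add_int, hx1]
      push_cast
      ring
  have hprL : ∀ n, (pr (f n) L : CircleDeg1Lift) = (pr (f n) l : CircleDeg1Lift) ^ q := by
    intro n
    rw [hL, pr_flatten, Units.val_pow_eq_pow_val]
  have hlow : ∀ n k : ℕ, k * q ≤ n + 1 → -2 ≤ x n k := by
    intro n k hk
    have h1 := (pr (f n) L : CircleDeg1Lift).dist_pow_map_zero_mul_translationNumber_le k
    rw [Real.dist_eq, abs_le] at h1
    rw [hxk] at h1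
    have h2 : translationNumber (pr (f n) L : CircleDeg1Lift) = q * rot (pr (f n) l) := by
      rw [hprL, translationNumber_pow]; rfl
    rw [h2] at h1
    have h3 := hf2 n
    have h4 : (k : ℝ) * (q * (p / q - 1 / (n + 1))) ≤ k * (q * rot (pr (f n) l)) := by
      gcongr
    have h5 : (k : ℝ) * (q * (p / q - 1 / (n + 1))) = k * p - (k * q) / (n + 1) := by
      field_simp
    have h6 : ((k : ℝ) * q) / (n + 1) ≤ 1 := by
      rw [div_le_one (by positivity)]
      exact_mod_cast hk
    push_cast at h1
    linarith
  -- room to spare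
  set len : ℕ := L.length with hlen
  set ε : ℝ := (p - (L.map rr).sum) / (len + 1) with hε
  have hgap : 0 < (p : ℝ) - (L.map rr).sum := by
    rw [hlin]
    rw [hpq, lt_div_iff₀ hq0'] at hcon
    linarith
  have hε0 : 0 < ε := by positivity
  let D : Data :=
    { N := len
      p := p
      ltr := ltrOf L
      f := f
      x := x
      rr := rr
      rr1 := fun c => rr c + ε
      x_zero := hx0
      x_succ := fun n k => by
        have := hle n (x n k)
        rw [hx1]; linarith
      x_low := fun k => by
        apply Nat.hyperfilter_le_atTop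
        filter_upwards [eventually_ge_atTop (k * q)] with n hn
        exact hlow n k (by omega)
      conj := hf1
      close := fun n k => by
        rw [hlen, Yu_length, hx1]; ring
      rr_lt := fun c => by linarith
      lin := by
        rw [hlen, sum_ltrOf (fun c => rr c + ε) L]
        have h1 : (L.map fun c => rr c + ε).sum = (L.map rr).sum + L.length * ε := by
          induction L with
          | nil => simp
          | cons c L ih => simp [ih]; ring
        rw [h1, ← hlen]
        have h2 : (len : ℝ) * ε ≤ (len + 1) * ε := by nlinarith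
        have h3 : ((len : ℝ) + 1) * ε = p - (L.map rr).sum := by
          rw [hε]; field_simp
        linarith }
  obtain ⟨g, hg1, y, hy⟩ := D.exists_pair
  have hy' : y + p ≤ pr g L y := by
    have : Yu D.ltr g D.N = pr g L := Yu_length g L
    rw [this] at hy
    exact hy
  have h6 : (p : ℝ) ≤ rot (pr g L) := le_translationNumber_of_add_int_le _ hy'
  have h7 : rot (pr g l) < Rminus (word l) r s := by
    apply rot_lt_of_slippery hs
    · exact hg1 true
    · exact hg1 false
  rw [hL, pr_flatten, rot_pow] at h6
  rw [hpq, lt_div_iff₀ hq0'] at h7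
  linarith

end Pool.Agent.Helper76.Slip
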