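import Pool.Agent.Helper76.SlipCycle

/-!
# From step maps to homeomorphisms
-/

namespace Pool.Agent.Helper76.Slip

open Filter CircleDeg1Lift

/-- The step map `x ↦ v + ⌊x - u⌋`. -/
noncomputable def step (u v : ℝ) : CircleDeg1Lift where
  toFun x := v + ⌊x - u⌋
  monotone' x y h := by
    have : ⌊x - u⌋ ≤ ⌊y - u⌋ := Int.floor_mono (by linarith)
    have h2 : ((⌊x - u⌋ : ℤ) : ℝ) ≤ ⌊y - u⌋ := by exact_mod_cast this
    simp only
    linarith
  map_add_one' x := by
    have : x + 1 - u = x - u + 1 := by ring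
    simp only [this, Int.floor_add_one]
    push_cast
    ring

lemma step_apply (u v x : ℝ) : step u v x = v + ⌊x - u⌋ := rfl

/-- The profile on the unit interval. -/
noncomputable def prof (δ t : ℝ) : ℝ := max (δ * t) (1 - (1 - t) / δ)

lemma prof_strictMono {δ : ℝ} (hδ : 0 < δ) : StrictMono (prof δ) := by
  intro x y h
  apply max_lt_max
  · nlinarith
  · have : (1 - y) / δ < (1 - x) / δ := by
      rw [div_lt_div_iff_of_pos_right hδ]; linarith
    linarith

lemma prof_nonneg {δ t : ℝ} (hδ : 0 < δ) (ht : 0 ≤ t) : 0 ≤ prof δ t :=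
  le_max_of_le_left (by positivity)

lemma prof_lt_one {δ t : ℝ} (hδ : 0 < δ) (hδ1 : δ < 1) (ht : t < 1) : prof δ t < 1 := by
  apply max_lt
  · nlinarith
  · have : 0 < (1 - t) / δ := div_pos (by linarith) hδ
    linarith

/-- A homeomorphism close to the floor function from above. -/
noncomputable def phiFun (δ x : ℝ) : ℝ := ⌊x⌋ + prof δ (Int.fract x)

lemma phiFun_strictMono {δ : ℝ} (hδ : 0 < δ) (hδ1 : δ < 1) : StrictMono (phiFun δ) := by
  intro x y h
  unfold phiFun
  rcases (Int.floor_mono h.le).eq_or_lt with h1 | h1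
  · have h2 : Int.fract x < Int.fract y := by
      unfold Int.fract
      rw [h1]; linarith
    have := prof_strictMono hδ h2
    rw [h1]; linarith
  · have h2 : ((⌊x⌋ + 1 : ℤ) : ℝ) ≤ ⌊y⌋ := by exact_mod_cast h1
    have h3 := prof_lt_one hδ hδ1 (Int.fract_lt_one x)
    have h4 := prof_nonneg hδ (Int.fract_nonneg y)
    push_cast at h2
    linarith

lemma phiFun_surjective {δ : ℝ} (hδ : 0 < δ) (hδ1 : δ < 1) : Function.Surjective (phiFun δ) := by
  intro y
  set s := Int.fract y with hs
  have hs0 : 0 ≤ s := Int.fract_nonneg y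
  have hs1 : s < 1 := Int.fract_lt_one y
  set t := min (s / δ) (1 - δ * (1 - s)) with ht
  have ht0 : 0 ≤ t := le_min (by positivity) (by nlinarith)
  have ht1 : t < 1 := (min_le_right _ _).trans_lt (by nlinarith)
  refine ⟨⌊y⌋ + t, ?_⟩
  have h1 : ⌊(⌊y⌋ : ℝ) + t⌋ = ⌊y⌋ := by
    rw [Int.floor_intCast_add, Int.floor_eq_zero_iff.2 ⟨ht0, ht1⟩, add_zero]
  have h2 : Int.fract ((⌊y⌋ : ℝ) + t) = t := by
    rw [Int.fract_intCast_add]
    exact Int.fract_eq_self.2 ⟨ht0, ht1⟩
  unfold phiFun
  rw [h1, h2]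
  have h3 : prof δ t = s := by
    unfold prof
    rcases le_total (s / δ) (1 - δ * (1 - s)) with h | h
    · rw [ht, min_eq_left h]
      have e1 : δ * (s / δ) = s := by field_simp
      rw [e1]
      apply max_eq_left
      have e2 : δ * (1 - s) ≤ 1 - s / δ := by linarith
      have e3 : 1 - s ≤ (1 - s / δ) / δ := by
        rw [le_div_iff₀ hδ]; linarith
      linarith
    · rw [ht, min_eq_right h]
      have e1 : (1 - (1 - δ * (1 - s))) / δ = 1 - s := by field_simp; ring
      rw [e1]
      have e2 : δ * (1 - δ * (1 - s)) ≤ s := by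
        rw [le_div_iff₀ hδ] at h
        linarith
      rw [max_eq_right (by linarith)]
      ring
  rw [h3, hs]
  exact Int.floor_add_fract y

/-- `phiFun` as an invertible lift. -/
noncomputable def phi (δ u v : ℝ) (hδ : 0 < δ) (hδ1 : δ < 1) : CircleDeg1Lift where
  toFun x := v + phiFun δ (x - u)
  monotone' x y h := by
    have := (phiFun_strictMono hδ hδ1).monotone (show x - u ≤ y - u by linarith)
    simp only
    linarith
  map_add_one' x := by
    have : x + 1 - u = x - u + 1 := by ring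
    simp only [this, phiFun, Int.floor_add_one, Int.fract_add_one]
    push_cast
    ring

lemma phi_strictMono {δ u v : ℝ} (hδ : 0 < δ) (hδ1 : δ < 1) : StrictMono (phi δ u v hδ hδ1) := by
  intro x y h
  have := (phiFun_strictMono hδ hδ1) (show x - u < y - u by linarith)
  show v + phiFun δ (x - u) < v + phiFun δ (y - u)
  linarith

lemma phi_continuous {δ u v : ℝ} (hδ : 0 < δ) (hδ1 : δ < 1) :
    Continuous (phi δ u v hδ hδ1) := by
  rw [CircleDeg1Lift.continuous_iff_surjective]
  intro y
  obtain ⟨x, hx⟩ := phiFun_surjective hδ hδ1 (y - v)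
  refine ⟨x + u, ?_⟩
  show v + phiFun δ (x + u - u) = y
  rw [add_sub_cancel_right, hx]
  ring

lemma step_le_phi {δ u v : ℝ} (hδ : 0 < δ) (hδ1 : δ < 1) (x : ℝ) :
    step u v x ≤ phi δ u v hδ hδ1 x := by
  show v + ⌊x - u⌋ ≤ v + (⌊x - u⌋ + prof δ (Int.fract (x - u)))
  have := prof_nonneg hδ (Int.fract_nonneg (x - u))
  linarith

lemma phi_le_step {δ u v : ℝ} (hδ : 0 < δ) (hδ1 : δ < 1) (x : ℝ) :
    phi δ u v hδ hδ1 x ≤ step u v (x + δ) + δ := by
  show v + (⌊x - u⌋ + prof δ (Int.fract (x - u))) ≤ v + ⌊x + δ - u⌋ + δ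
  set t := Int.fract (x - u) with ht
  have ht0 : 0 ≤ t := Int.fract_nonneg _
  have ht1 : t < 1 := Int.fract_lt_one _
  have hx : x - u = ⌊x - u⌋ + t := (Int.floor_add_fract _).symm
  rcases lt_or_ge t (1 - δ) with h | h
  · have h1 : ⌊x - u⌋ ≤ ⌊x + δ - u⌋ := Int.floor_mono (by linarith)
    have h1' : ((⌊x - u⌋ : ℤ) : ℝ) ≤ ⌊x + δ - u⌋ := by exact_mod_cast h1
    have h2 : prof δ t ≤ δ := by
      apply max_le
      · nlinarith
      · have : 1 ≤ (1 - t) / δ := by
          rw [le_div_iff₀ hδ]; linarith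
        linarith
    linarith
  · have h1 : ⌊x - u⌋ + 1 ≤ ⌊x + δ - u⌋ := by
      rw [Int.le_floor]
      push_cast
      linarith
    have h1' : ((⌊x - u⌋ : ℤ) : ℝ) + 1 ≤ ⌊x + δ - u⌋ := by exact_mod_cast h1
    have h2 := prof_lt_one hδ hδ1 ht1
    linarith

lemma sup'_apply {ι : Type*} (J : Finset ι) (hJ : J.Nonempty) (f : ι → CircleDeg1Lift) (x : ℝ) :
    (J.sup' hJ f) x = J.sup' hJ (fun j => f j x) :=
  Finset.apply_sup'_eq_sup'_comp hJ (fun g : CircleDeg1Lift => g x) fun _ _ => rfl

/-- The upper homeomorphism. -/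
lemma exists_homeo {ι : Type*} (J : Finset ι) (hJ : J.Nonempty) (u v : ι → ℝ) (K : ℕ) (hK : 0 < K)
    (huv : ∀ i ∈ J, ∀ j ∈ J, ∃ z : ℤ, (v i - u j) * K = z) :
    ∃ f : G, (∀ j ∈ J, v j ≤ f (u j)) ∧
      rot f ≤ translationNumber (J.sup' hJ fun j => step (u j) (v j)) := by
  set δ : ℝ := 1 / (4 * K) with hδ
  have hK' : (1 : ℝ) ≤ K := by exact_mod_cast hK
  have hδ0 : 0 < δ := by positivity
  have hδ1 : δ < 1 := by
    rw [hδ, div_lt_one (by positivity)]; linarith
  set g : CircleDeg1Lift := J.sup' hJ fun j => phi δ (u j) (v j) hδ0 hδ1 with hg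
  set F : CircleDeg1Lift := J.sup' hJ fun j => step (u j) (v j) with hF
  have hp : StrictMono g ∧ Continuous g := by
    rw [hg]
    refine Finset.sup'_induction hJ _ (p := fun g : CircleDeg1Lift => StrictMono g ∧ Continuous g)
      ?_ fun j _ => ⟨phi_strictMono hδ0 hδ1, phi_continuous hδ0 hδ1⟩
    intro a ha b hb
    exact ⟨fun x y h => max_lt_max (ha.1 h) (hb.1 h), ha.2.max hb.2⟩
  have hb : Function.Bijective g :=
    ⟨hp.1.injective, (CircleDeg1Lift.continuous_iff_surjective g).1 hp.2⟩
  obtain ⟨f, hf⟩ := isUnit_iff_bijective.2 hb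
  refine ⟨f, ?_, ?_⟩
  · intro j hj
    rw [hf, hg, sup'_apply]
    refine le_trans ?_ (Finset.le_sup' (fun j' => phi δ (u j') (v j') hδ0 hδ1 (u j)) hj)
    refine le_trans ?_ (step_le_phi hδ0 hδ1 (u j))
    rw [step_apply, sub_self]
    simp
  · -- compare with the step map
    have h1 : g ≤ (T δ : G) * F * (T δ : G) := by
      intro x
      show g x ≤ (T δ : G) (F ((T δ : G) x))
      have e1 : (T δ : G) x = x + δ := by show δ + x = _; ring
      have e2 : (T δ : G) (F ((T δ : G) x)) = F (x + δ) + δ := by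
        rw [e1]; show δ + F (x + δ) = _; ring
      rw [e2, hg, sup'_apply, hF, sup'_apply]
      apply Finset.sup'_le
      intro j hj
      refine (phi_le_step hδ0 hδ1 x).trans ?_
      have := Finset.le_sup' (fun j' => step (u j') (v j') (x + δ)) hj
      linarith
    have h2 : translationNumber ((T δ : G) * F * (T δ : G) : CircleDeg1Lift)
        = translationNumber ((T (2 * δ) : G) * F : CircleDeg1Lift) := by
      have h3 := translationNumber_conj_eq (T δ : G) ((T δ : G) * F * (T δ : G) : CircleDeg1Lift)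
      rw [← h3]
      congr 1
      ext x
      show (T δ : G) ((T δ : G) (F ((T δ : G) ((T δ : G)⁻¹ x)))) = (T (2 * δ) : G) (F x)
      rw [units_apply_inv_apply]
      show δ + (δ + F x) = 2 * δ + F x
      ring
    have hFF : ∀ x, F (F x + 2 * δ) = F (F x) := by
      intro x
      have hx : ∃ i ∈ J, ∃ m : ℤ, F x = v i + m := by
        rw [hF, sup'_apply]
        obtain ⟨i, hi, h⟩ := Finset.exists_mem_eq_sup' hJ (fun j => step (u j) (v j) x)
        exact ⟨i, hi, ⌊x - u i⌋, by rw [h, step_apply]⟩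
      obtain ⟨i, hi, m, hm⟩ := hx
      rw [hm, hF, sup'_apply, sup'_apply]
      apply Finset.sup'_congr hJ rfl
      intro j hj
      rw [step_apply, step_apply]
      congr 2
      obtain ⟨z, hz⟩ := huv i hi j hj
      have hK0 : (0 : ℝ) < K := by linarith
      have e1 : v i + m + 2 * δ - u j = ((z + m * K : ℤ) : ℝ) / K + 2 * δ := by
        have : v i - u j = z / K := by field_simp; linarith
        push_cast
        rw [add_div, ← this]
        field_simp
        ring
      have e2 : v i + m - u j = ((z + m * K : ℤ) : ℝ) / K := by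
        have : v i - u j = z / K := by field_simp; linarith
        push_cast
        rw [add_div, ← this]
        field_simp
        ring
      rw [e1, e2]
      set Z := z + m * K
      rw [Int.floor_eq_iff]
      have f1 := Int.floor_le ((Z : ℝ) / K)
      have f2 : (Z : ℝ) / K + 1 / K ≤ ⌊(Z : ℝ) / K⌋ + 1 := by
        have g1 := Int.lt_floor_add_one ((Z : ℝ) / K)
        rw [div_lt_iff₀ hK0] at g1
        have g2 : Z < (⌊(Z : ℝ) / K⌋ + 1) * K := by exact_mod_cast g1
        have g3 : Z + 1 ≤ (⌊(Z : ℝ) / K⌋ + 1) * K := g2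
        have g4 : (Z : ℝ) + 1 ≤ (⌊(Z : ℝ) / K⌋ + 1) * K := by exact_mod_cast g3
        rw [← add_div, div_le_iff₀ hK0]
        exact g4
      have f3 : 2 * δ < 1 / K := by
        rw [hδ]
        rw [show (2 : ℝ) * (1 / (4 * K)) = 1 / (2 * K) by field_simp; norm_num]
        apply one_div_lt_one_div_of_lt hK0
        linarith
      constructor <;> linarith
    have h4 : ∀ n : ℕ, ∀ x, (((T (2 * δ) : G) * F : CircleDeg1Lift) ^ (n + 1)) x
        = (F ^ (n + 1)) x + 2 * δ := by
      intro n
      induction n with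
      | zero =>
        intro x
        simp only [zero_add, pow_one]
        show 2 * δ + F x = _
        ring
      | succ n ih =>
        intro x
        have e1 : (F ^ (n + 1 + 1)) x = F ((F ^ (n + 1)) x) := by rw [pow_succ', mul_apply]
        have e2 : (F ^ (n + 1)) x = F ((F ^ n) x) := by rw [pow_succ', mul_apply]
        rw [pow_succ', mul_apply, ih x, e1]
        show 2 * δ + F ((F ^ (n + 1)) x + 2 * δ) = _
        rw [e2, hFF]
        ring
    have h5 : translationNumber ((T (2 * δ) : G) * F : CircleDeg1Lift) = translationNumber F := by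
      apply translationNumber_eq_of_dist_bounded (2 * δ)
      intro n
      rcases n with _ | n
      · simp; positivity
      · rw [h4, Real.dist_eq]
        rw [add_sub_cancel_left, abs_of_pos (by positivity)]
    have h6 := translationNumber_mono h1
    unfold rot
    rw [hf]
    rw [h2, h5] at h6
    exact h6

end Pool.Agent.Helper76.Slip
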