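import Pool.Agent.Helper76.SlipHomeo

/-!
# Improvement of an almost closed orbit
-/

namespace Pool.Agent.Helper76.Slip

open Filter CircleDeg1Lift

namespace Data

variable {D : Data}

/-- The steps with a given letter. -/
def J (D : Data) (c : Bool) : Finset ℕ := (Finset.range D.N).filter fun j => D.ltr j = c

lemma mem_J {c : Bool} {j : ℕ} : j ∈ D.J c ↔ j < D.N ∧ D.ltr j = c := by
  simp [J]

lemma Y_lattice (i j : ℕ) : ∃ z : ℤ, (D.Y i - D.Y j) * ((D.N + 1 : ℕ) : ℝ) = z := by
  refine ⟨∑ c ∈ Finset.range (D.N + 1), D.dm i c - ∑ c ∈ Finset.range (D.N + 1), D.dm j c, ?_⟩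
  have hN : (D.N : ℝ) + 1 ≠ 0 := by positivity
  unfold Y
  push_cast
  field_simp

/-- The step map of a letter has rotation number smaller than allowed. -/
lemma step_lt (c : Bool) (hJ : (D.J c).Nonempty) :
    translationNumber ((D.J c).sup' hJ fun j => step (D.Y j) (D.Y (j + 1))) < D.rr c := by
  set F : CircleDeg1Lift := (D.J c).sup' hJ fun j => step (D.Y j) (D.Y (j + 1)) with hF
  have hsel : ∀ x, ∃ j ∈ D.J c, F x = D.Y (j + 1) + ⌊x - D.Y j⌋ := by
    intro x
    rw [hF, sup'_apply]
    obtain ⟨i, hi, h⟩ := Finset.exists_mem_eq_sup' hJ (fun j => step (D.Y j) (D.Y (j + 1)) x)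
    exact ⟨i, hi, by rw [h, step_apply]⟩
  choose sel hsel1 hsel2 using hsel
  obtain ⟨j0, hj0⟩ := hJ
  -- the orbit
  let st : ℕ → ℕ × ℤ := fun n => Nat.rec (j0, 0)
    (fun _ s => (sel (D.Y (s.1 + 1) + s.2), ⌊D.Y (s.1 + 1) + s.2 - D.Y (sel (D.Y (s.1 + 1) + s.2))⌋)) n
  have hst : ∀ n, st (n + 1) = (sel (D.Y ((st n).1 + 1) + (st n).2),
      ⌊D.Y ((st n).1 + 1) + (st n).2 - D.Y (sel (D.Y ((st n).1 + 1) + (st n).2))⌋) := fun n => rfl
  have hstJ : ∀ n, (st n).1 ∈ D.J c := by
    intro n
    cases n with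
    | zero => exact hj0
    | succ n => rw [hst]; exact hsel1 _
  have hF1 : ∀ n, F (D.Y ((st n).1 + 1) + (st n).2) = D.Y ((st (n + 1)).1 + 1) + (st (n + 1)).2 := by
    intro n
    rw [hsel2, hst]
  have hFn : ∀ s n, (F ^ n) (D.Y ((st s).1 + 1) + (st s).2)
      = D.Y ((st (s + n)).1 + 1) + (st (s + n)).2 := by
    intro s n
    induction n with
    | zero => simp
    | succ n ih => rw [pow_succ', mul_apply, ih, hF1]; rfl
  -- pigeonhole
  obtain ⟨s, t, hst', heq⟩ : ∃ s t, s < t ∧ (st s).1 = (st t).1 := by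
    by_contra hcon
    push Not at hcon
    have hinj : Function.Injective fun n => (⟨(st n).1, hstJ n⟩ : D.J c) := by
      intro a b hab
      simp only [Subtype.mk.injEq] at hab
      rcases lt_trichotomy a b with h | h | h
      · exact absurd hab (hcon a b h)
      · exact h
      · exact absurd hab.symm (hcon b a h)
    exact not_injective_infinite_finite _ hinj
  set L := t - s with hL
  have hL0 : 0 < L := by omega
  set M : ℤ := (st t).2 - (st s).2 with hM
  have hpow : (F ^ L) (D.Y ((st s).1 + 1) + (st s).2) = D.Y ((st s).1 + 1) + (st s).2 + M := by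
    rw [hFn, show s + L = t by omega, ← heq, hM]
    push_cast
    ring
  have htau : translationNumber F = M / L := by
    have := F.translationNumber_of_map_pow_eq_add_int hpow hL0
    exact this
  have hcyc := cycle_lt (D := D) c (fun i => (st (s + i)).1) (fun i => (st (s + i)).2) L hL0 M
    (by
      intro i _
      have h1 : D.Y (st (s + i + 1)).1 + (st (s + i + 1)).2
          ≤ D.Y ((st (s + i)).1 + 1) + (st (s + i)).2 := by
        rw [hst]
        have := Int.floor_le (D.Y ((st (s + i)).1 + 1) + (st (s + i)).2 -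
          D.Y (sel (D.Y ((st (s + i)).1 + 1) + (st (s + i)).2)))
        linarith
      have h2 : D.Lx ((st (s + i + 1)).1, (st (s + i + 1)).2) ((st (s + i)).1 + 1, (st (s + i)).2) :=
        Lx_of_Y (mem_J.1 (hstJ (s + i + 1))).1.le h1
      exact h2)
    (fun i _ => (mem_J.1 (hstJ _)).2)
    (by simp only [add_zero]; rw [show s + L = t by omega, heq])
    (by simp only [add_zero]; rw [show s + L = t by omega, hM]; ring)
  rw [htau, div_lt_iff₀ (by exact_mod_cast hL0)]
  linarith

lemma exists_letter (c : Bool) :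
    ∃ f : G, rot f < D.rr c ∧ ∀ j < D.N, D.ltr j = c → D.Y (j + 1) ≤ f (D.Y j) := by
  rcases (D.J c).eq_empty_or_nonempty with h | h
  · refine ⟨T (D.rr c - 1), ?_, ?_⟩
    · have : rot (T (D.rr c - 1)) = D.rr c - 1 := translationNumber_translate _
      rw [this]; linarith
    · intro j hj hc
      exfalso
      have : j ∈ D.J c := mem_J.2 ⟨hj, hc⟩
      rw [h] at this
      exact Finset.notMem_empty _ this
  · obtain ⟨f, hf1, hf2⟩ := exists_homeo (D.J c) h (fun j => D.Y j) (fun j => D.Y (j + 1)) (D.N + 1)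
      (Nat.succ_pos _) (fun i _ j _ => Y_lattice _ _)
    exact ⟨f, hf2.trans_lt (step_lt c h), fun j hj hc => hf1 j (mem_J.2 ⟨hj, hc⟩)⟩

lemma Y_close : D.Y 0 + D.p ≤ D.Y D.N := by
  have h1 : D.Lx (0, D.p) (D.N, 0) := by
    refine ⟨fun k' => ⟨k' + 1, Eventually.of_forall fun n => ?_⟩, fun _ => ?_⟩
    · have h2 : D.P n D.N k' = D.x n (k' + 1) + D.p := D.close n k'
      have h3 : D.P n 0 (k' + 1) = D.x n (k' + 1) := rfl
      simp only [h2, h3, Int.cast_zero, add_zero, le_refl]
    · have h2 : D.eta 0 = 0 := by simp [eta]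
      have h3 := D.lin
      simp only [h2, Int.cast_zero, sub_zero, zero_sub]
      unfold eta
      linarith
  have h2 : D.Lx (0, 0) (D.N, -D.p) := h1.shift' (-D.p) (by ring) (by ring)
  have h3 := Y_le h2
  push_cast at h3
  linarith

/-- From an almost closed orbit to one with room to spare. -/
theorem exists_pair (D : Data) : ∃ f : Bool → G, (∀ c, rot (f c) < D.rr c) ∧
    ∃ y : ℝ, y + D.p ≤ Yu D.ltr f D.N y := by
  choose f hf1 hf2 using fun c => exists_letter (D := D) c
  refine ⟨f, hf1, D.Y 0, Y_close.trans ?_⟩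
  have : ∀ j ≤ D.N, D.Y j ≤ Yu D.ltr f j (D.Y 0) := by
    intro j
    induction j with
    | zero => intro _; exact le_rfl
    | succ j ih =>
      intro hj
      have h1 := hf2 (D.ltr j) j (by omega) rfl
      exact h1.trans ((f (D.ltr j) : CircleDeg1Lift).monotone (ih (by omega)))
  exact this _ le_rfl

end Data

end Pool.Agent.Helper76.Slip
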