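import Pool.Agent.Helper76.SlipDefs

/-!
# The limit pattern of an almost closed orbit
-/

namespace Pool.Agent.Helper76.Slip

open Filter CircleDeg1Lift

/-- The composition of the first `j` letters. -/
noncomputable def Yu (ltr : ℕ → Bool) (f : Bool → G) : ℕ → G
  | 0 => 1
  | j + 1 => f (ltr j) * Yu ltr f j

/-- Data of a sequence of actions with an almost closed orbit. -/
structure Data where
  N : ℕ
  p : ℤ
  ltr : ℕ → Bool
  f : ℕ → Bool → G
  x : ℕ → ℕ → ℝ
  rr : Bool → ℝ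
  rr1 : Bool → ℝ
  x_zero : ∀ n, x n 0 = 0
  x_succ : ∀ n k, x n (k + 1) ≤ x n k
  x_low : ∀ k, ∀ᶠ n in (hyperfilter ℕ : Filter ℕ), -2 ≤ x n k
  conj : ∀ n c, IsConj (f n c) (T (rr c))
  close : ∀ n k, Yu ltr (f n) N (x n k) = x n (k + 1) + p
  rr_lt : ∀ c, rr c < rr1 c
  lin : ∑ j ∈ Finset.range N, rr1 (ltr j) ≤ p

variable (D : Data)

namespace Data

/-- The point `v_j (x_k)` in the `n`-th action. -/
noncomputable def P (n j k : ℕ) : ℝ := Yu D.ltr (D.f n) j (D.x n k)

/-- Comparison of the limit cuts. -/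
def Le (A B : ℕ × ℤ) : Prop :=
  ∀ k', ∃ k, ∀ᶠ n in (hyperfilter ℕ : Filter ℕ), D.P n A.1 k + A.2 ≤ D.P n B.1 k' + B.2

lemma x_anti (n : ℕ) : Antitone (D.x n) := antitone_nat_of_succ_le (D.x_succ n)

lemma Le.refl (A : ℕ × ℤ) : D.Le A A := fun k' => ⟨k', Eventually.of_forall fun _ => le_rfl⟩

variable {D}

lemma Le.trans {A B C : ℕ × ℤ} (h1 : D.Le A B) (h2 : D.Le B C) : D.Le A C := by
  intro k'
  obtain ⟨k, hk⟩ := h2 k'
  obtain ⟨k2, hk2⟩ := h1 k
  exact ⟨k2, by filter_upwards [hk, hk2] with n a b using b.trans a⟩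

lemma not_le {A B : ℕ × ℤ} (h : ¬ D.Le A B) :
    ∃ k', ∀ k, ∀ᶠ n in (hyperfilter ℕ : Filter ℕ), D.P n B.1 k' + B.2 < D.P n A.1 k + A.2 := by
  unfold Le at h
  push Not at h
  exact h

lemma Le.total (A B : ℕ × ℤ) : D.Le A B ∨ D.Le B A := by
  by_cases h : D.Le A B
  · exact Or.inl h
  · right
    obtain ⟨k', hk'⟩ := not_le h
    exact fun k => ⟨k', by filter_upwards [hk' k] with n hn using hn.le⟩

lemma Le.shift {j m j' m'} (c : ℤ) (h : D.Le (j, m) (j', m')) : D.Le (j, m + c) (j', m' + c) := by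
  intro k'
  obtain ⟨k, hk⟩ := h k'
  refine ⟨k, ?_⟩
  filter_upwards [hk] with n hn
  have hn' : D.P n j k + m ≤ D.P n j' k' + m' := hn
  show D.P n j k + ((m + c : ℤ) : ℝ) ≤ D.P n j' k' + ((m' + c : ℤ) : ℝ)
  push_cast
  linarith

lemma Le.shift_iff {j m j' m'} (c : ℤ) : D.Le (j, m + c) (j', m' + c) ↔ D.Le (j, m) (j', m') := by
  constructor
  · intro h
    have := h.shift (-c)
    simpa using this
  · exact fun h => h.shift c

lemma P_succ (n j k : ℕ) : D.P n (j + 1) k = D.f n (D.ltr j) (D.P n j k) := rfl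

lemma Yu_strictMono (ltr : ℕ → Bool) (f : Bool → G) (j : ℕ) : StrictMono (Yu ltr f j) :=
  (toOrderIso (Yu ltr f j)).strictMono

/-- A shift by one is a strict increase. -/
lemma not_le_succ (j : ℕ) (m : ℤ) : ¬ D.Le (j, m + 1) (j, m) := by
  intro h
  have key : ∀ c : ℕ, ∃ k, ∀ᶠ n in (hyperfilter ℕ : Filter ℕ), D.x n k + c ≤ 0 := by
    intro c
    induction c with
    | zero => exact ⟨0, Eventually.of_forall fun n => by simp [D.x_zero]⟩
    | succ c ih =>
      obtain ⟨k, hk⟩ := ih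
      obtain ⟨k2, hk2⟩ := h k
      refine ⟨k2, ?_⟩
      filter_upwards [hk, hk2] with n h1 h2
      simp only [P] at h2
      push_cast at h2 ⊢
      have h3 : Yu D.ltr (D.f n) j (D.x n k2 + 1) ≤ Yu D.ltr (D.f n) j (D.x n k) := by
        rw [CircleDeg1Lift.map_add_one]; linarith
      have h4 := (Yu_strictMono D.ltr (D.f n) j).le_iff_le.1 h3
      linarith
  obtain ⟨k, hk⟩ := key 3
  have := (hk.and (D.x_low k)).exists
  obtain ⟨n, h1, h2⟩ := this
  push_cast at h1
  linarith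

/-! ### Displacement bounds -/

end Data

lemma rot_of_isConj {f : G} {r : ℝ} (h : IsConj f (T r)) : rot f = r := by
  obtain ⟨c, hc⟩ := h
  have h1 : (f : CircleDeg1Lift) = (c⁻¹ : G) * (T r : G) * (c : G) := by
    have h2 : f = (c : G)⁻¹ * T r * c := by
      rw [mul_assoc, ← hc.eq]; simp
    rw [h2]; simp
  unfold rot
  have h3 : f = (c : G)⁻¹ * T r * c := by
    rw [mul_assoc, ← hc.eq]; simp
  have h4 := translationNumber_conj_eq ((c : G)⁻¹) (T r : G)
  rw [h3]
  simp only [Units.val_mul, inv_inv] at h4 ⊢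
  rw [h4]
  exact translationNumber_translate r

lemma abs_sub_le (f : G) (t : ℝ) : |f t - t| ≤ |rot f| + 1 := by
  have h1 := (f : CircleDeg1Lift).map_lt_add_translationNumber_add_one t
  have h2 := (f : CircleDeg1Lift).translationNumber_le_ceil_sub t
  have h3 := Int.ceil_lt_add_one (f t - t)
  have h4 : rot f ≤ |rot f| := le_abs_self _
  have h5 : -rot f ≤ |rot f| := neg_le_abs _
  unfold rot at *
  rw [abs_le]
  constructor <;> linarith

namespace Data

variable {D}

/-- Uniform bound for the positions. -/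
noncomputable def C (D : Data) (j : ℕ) : ℝ := ∑ i ∈ Finset.range j, (|D.rr (D.ltr i)| + 1)

lemma C_nonneg (j : ℕ) : 0 ≤ D.C j := Finset.sum_nonneg fun i _ => by positivity

lemma abs_Yu (n j : ℕ) (t : ℝ) : |Yu D.ltr (D.f n) j t - t| ≤ D.C j := by
  induction j with
  | zero => simp [Yu, C]
  | succ j ih =>
    have h1 := abs_sub_le (D.f n (D.ltr j)) (Yu D.ltr (D.f n) j t)
    rw [rot_of_isConj (D.conj n (D.ltr j))] at h1
    have h2 : Yu D.ltr (D.f n) (j + 1) t = D.f n (D.ltr j) (Yu D.ltr (D.f n) j t) := rfl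
    rw [h2, C, Finset.sum_range_succ]
    have h3 := abs_add_le (D.f n (D.ltr j) (Yu D.ltr (D.f n) j t) - Yu D.ltr (D.f n) j t)
      (Yu D.ltr (D.f n) j t - t)
    have h4 : D.f n (D.ltr j) (Yu D.ltr (D.f n) j t) - Yu D.ltr (D.f n) j t
      + (Yu D.ltr (D.f n) j t - t) = D.f n (D.ltr j) (Yu D.ltr (D.f n) j t) - t := by ring
    rw [h4] at h3
    unfold C at ih
    linarith

lemma x_nonpos (n k : ℕ) : D.x n k ≤ 0 := by
  have := D.x_anti n (Nat.zero_le k)
  rwa [D.x_zero] at this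

lemma P_le (n j k : ℕ) : D.P n j k ≤ D.C j := by
  have h1 := abs_le.1 (abs_Yu (D := D) n j (D.x n k))
  have h2 := x_nonpos (D := D) n k
  unfold P
  linarith

lemma le_P (j k : ℕ) : ∀ᶠ n in (hyperfilter ℕ : Filter ℕ), -D.C j - 2 ≤ D.P n j k := by
  filter_upwards [D.x_low k] with n hn
  have h1 := abs_le.1 (abs_Yu (D := D) n j (D.x n k))
  unfold P
  linarith

lemma exists_le (j j' : ℕ) : ∃ m : ℤ, D.Le (j', m) (j, 0) := by
  refine ⟨⌊-D.C j - 2 - D.C j'⌋, fun k' => ⟨0, ?_⟩⟩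
  filter_upwards [le_P (D := D) j k'] with n hn
  have h1 := P_le (D := D) n j' 0
  have h2 := Int.floor_le (-D.C j - 2 - D.C j')
  simp only [Int.cast_zero, add_zero]
  linarith

lemma Le.int_le {j j' : ℕ} {m : ℤ} (h : D.Le (j', m) (j, 0)) : m ≤ ⌈D.C j + D.C j' + 2⌉ := by
  obtain ⟨k, hk⟩ := h 0
  obtain ⟨n, h1, h2⟩ := (hk.and (le_P (D := D) j' k)).exists
  have h3 := P_le (D := D) n j 0
  simp only [Int.cast_zero, add_zero] at h1
  have h4 := Int.le_ceil (D.C j + D.C j' + 2)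
  have h5 : (m : ℝ) ≤ (⌈D.C j + D.C j' + 2⌉ : ℤ) := by linarith
  exact_mod_cast h5

/-! ### The lexicographic order -/

/-- The second coordinate. -/
noncomputable def eta (D : Data) (j : ℕ) : ℝ := -∑ i ∈ Finset.range j, D.rr1 (D.ltr i)

lemma eta_succ (j : ℕ) : D.eta (j + 1) = D.eta j - D.rr1 (D.ltr j) := by
  rw [eta, eta, Finset.sum_range_succ]; ring

/-- Lexicographic comparison. -/
def Lx (D : Data) (A B : ℕ × ℤ) : Prop :=
  D.Le A B ∧ (D.Le B A → D.eta A.1 - A.2 ≤ D.eta B.1 - B.2)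

lemma Lx.refl (A : ℕ × ℤ) : D.Lx A A := ⟨Le.refl D A, fun _ => le_rfl⟩

lemma Lx.trans {A B E : ℕ × ℤ} (h1 : D.Lx A B) (h2 : D.Lx B E) : D.Lx A E := by
  refine ⟨h1.1.trans h2.1, fun h => ?_⟩
  exact (h1.2 (h2.1.trans h)).trans (h2.2 (h.trans h1.1))

lemma Lx.total (A B : ℕ × ℤ) : D.Lx A B ∨ D.Lx B A := by
  by_cases h1 : D.Le A B
  · by_cases h2 : D.Le B A
    · rcases le_total (D.eta A.1 - A.2) (D.eta B.1 - B.2) with h | h
      · exact Or.inl ⟨h1, fun _ => h⟩
      · exact Or.inr ⟨h2, fun _ => h⟩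
    · exact Or.inl ⟨h1, fun h => absurd h h2⟩
  · have h2 := (Le.total A B).resolve_left h1
    exact Or.inr ⟨h2, fun h => absurd h h1⟩

lemma Lx.shift {j m j' m'} (c : ℤ) (h : D.Lx (j, m) (j', m')) :
    D.Lx (j, m + c) (j', m' + c) := by
  refine ⟨h.1.shift c, fun h' => ?_⟩
  have := h.2 ((Le.shift_iff c).1 h')
  have h1 : D.eta j - (m : ℝ) ≤ D.eta j' - (m' : ℝ) := this
  show D.eta j - ((m + c : ℤ) : ℝ) ≤ D.eta j' - ((m' + c : ℤ) : ℝ)
  push_cast
  linarith

lemma Lx.shift' {j m j' m'} (c : ℤ) (h : D.Lx (j, m) (j', m')) {n n' : ℤ} (hn : n = m + c)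
    (hn' : n' = m' + c) : D.Lx (j, n) (j', n') := by
  subst hn hn'
  exact h.shift c

lemma not_Lx_succ (j : ℕ) (m : ℤ) : ¬ D.Lx (j, m + 1) (j, m) := fun h => not_le_succ j m h.1

lemma exists_Lx (j j' : ℕ) : ∃ m : ℤ, D.Lx (j', m) (j, 0) := by
  obtain ⟨m, hm⟩ := exists_le (D := D) j j'
  have h1 : D.Le (j', m - 1) (j', m) := by
    refine (Le.total (D := D) (j', m - 1) (j', m)).resolve_right fun h => ?_
    have := not_le_succ (D := D) j' (m - 1)
    rw [sub_add_cancel] at this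
    exact this h
  refine ⟨m - 1, h1.trans hm, fun h => ?_⟩
  have := not_le_succ (D := D) j' (m - 1)
  rw [sub_add_cancel] at this
  exact absurd (hm.trans h) this

lemma exists_greatest (j j' : ℕ) :
    ∃ m : ℤ, D.Lx (j', m) (j, 0) ∧ ∀ z : ℤ, D.Lx (j', z) (j, 0) → z ≤ m :=
  Int.exists_greatest_of_bdd ⟨_, fun _ h => h.1.int_le⟩ (exists_Lx j j')

/-- The greatest shift of `j'` below `j`. -/
noncomputable def dm (D : Data) (j j' : ℕ) : ℤ := (exists_greatest (D := D) j j').choose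

lemma dm_spec (j j' : ℕ) : D.Lx (j', D.dm j j') (j, 0) :=
  (exists_greatest (D := D) j j').choose_spec.1

lemma le_dm {j j' : ℕ} {z : ℤ} (h : D.Lx (j', z) (j, 0)) : z ≤ D.dm j j' :=
  (exists_greatest (D := D) j j').choose_spec.2 z h

lemma dm_self (j : ℕ) : D.dm j j = 0 := by
  apply le_antisymm
  · by_contra h
    push Not at h
    have h1 := dm_spec (D := D) j j
    have h2 : D.Le (j, 1) (j, D.dm j j) := by
      intro k'
      refine ⟨k', Eventually.of_forall fun n => ?_⟩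
      have : (1 : ℝ) ≤ D.dm j j := by exact_mod_cast h
      simpa using this
    exact not_le_succ (D := D) j 0 (by simpa using h2.trans h1.1)
  · exact le_dm (Lx.refl _)

/-- Realisation of the lexicographic order on the line. -/
noncomputable def Y (D : Data) (j : ℕ) : ℝ :=
  (∑ i ∈ Finset.range (D.N + 1), (D.dm j i : ℝ)) / (D.N + 1)

lemma Y_le {j i : ℕ} {m : ℤ} (h : D.Lx (j, 0) (i, m)) : D.Y j ≤ D.Y i + m := by
  have hN : (0 : ℝ) < D.N + 1 := by positivity
  have h1 : ∀ c ∈ Finset.range (D.N + 1), (D.dm j c : ℝ) ≤ D.dm i c + m := by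
    intro c _
    have h2 := (dm_spec (D := D) j c).trans h
    have h3 : D.Lx (c, D.dm j c - m) (i, 0) := h2.shift' (-m) (by ring) (by ring)
    have h4 := le_dm h3
    have : D.dm j c ≤ D.dm i c + m := by linarith
    exact_mod_cast this
  have h2 := Finset.sum_le_sum h1
  rw [Finset.sum_add_distrib, Finset.sum_const, Finset.card_range, nsmul_eq_mul] at h2
  unfold Y
  rw [div_add' _ _ _ hN.ne', div_le_div_iff_of_pos_right hN]
  push_cast at h2
  linarith

lemma Y_lt {j i : ℕ} {m : ℤ} (hj : j ≤ D.N) (h : ¬ D.Lx (j, 0) (i, m)) : D.Y i + m < D.Y j := by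
  have hN : (0 : ℝ) < D.N + 1 := by positivity
  have h0 := (Lx.total (D := D) (j, 0) (i, m)).resolve_left h
  have h1 : ∀ c ∈ Finset.range (D.N + 1), (D.dm i c : ℝ) + m ≤ D.dm j c := by
    intro c _
    have h2 : D.Lx (c, D.dm i c + m) (i, m) := (dm_spec (D := D) i c).shift' m rfl (by ring)
    have h4 := le_dm (h2.trans h0)
    exact_mod_cast h4
  have h2 : ∑ c ∈ Finset.range (D.N + 1), ((D.dm i c : ℝ) + m)
      < ∑ c ∈ Finset.range (D.N + 1), (D.dm j c : ℝ) := by
    refine Finset.sum_lt_sum h1 ⟨j, Finset.mem_range.2 (by omega), ?_⟩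
    rw [dm_self]
    have h3 : D.dm i j < -m := by
      by_contra h4
      push Not at h4
      apply h
      have h5 := dm_spec (D := D) i j
      have h6 : D.Lx (j, -m) (j, D.dm i j) := by
        rcases h4.eq_or_lt with h7 | h7
        · rw [h7]; exact Lx.refl _
        · have h8 : D.Le (j, -m) (j, D.dm i j) := by
            intro k'
            refine ⟨k', Eventually.of_forall fun n => ?_⟩
            have : ((-m : ℤ) : ℝ) ≤ D.dm i j := by exact_mod_cast h4
            simpa using this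
          refine ⟨h8, fun h9 => ?_⟩
          exfalso
          have h10 : D.Le (j, -m + 1) (j, D.dm i j) := by
            intro k'
            refine ⟨k', Eventually.of_forall fun n => ?_⟩
            have : ((-m + 1 : ℤ) : ℝ) ≤ D.dm i j := by exact_mod_cast h7
            simpa using this
          exact not_le_succ (D := D) j (-m) (h10.trans h9)
      exact (h6.trans h5).shift' m (by ring) (by ring)
    have : (D.dm i j : ℝ) < -m := by exact_mod_cast h3
    push_cast
    linarith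
  rw [Finset.sum_add_distrib, Finset.sum_const, Finset.card_range, nsmul_eq_mul] at h2
  unfold Y
  rw [div_add' _ _ _ hN.ne', div_lt_div_iff_of_pos_right hN]
  push_cast at h2
  linarith

lemma Lx_of_Y {j i : ℕ} {m m' : ℤ} (hj : j ≤ D.N) (h : D.Y j + m ≤ D.Y i + m') :
    D.Lx (j, m) (i, m') := by
  by_contra h1
  have h2 : ¬ D.Lx (j, 0) (i, m' - m) := fun h3 => h1 (h3.shift' m (by ring) (by ring))
  have h3 := Y_lt hj h2
  push_cast at h3
  linarith

end Data

end Pool.Agent.Helper76.Slip
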